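import Pool.Agent.Vrd.Prod

/-!
Charts and the covering of space by cells
-/

set_option autoImplicit false

namespace Pool.Agent.Vrd

open MeasureTheory Set Vor
open scoped ENNReal NNReal

-- BEGIN fch
private theorem fch_face_eq {n : ℕ} {u p : Fin n → E} {f : Set E} (hf : f ∈ Faces u p) {z : E}
    (hz : z ∈ f) : f = connectedComponentIn {y | Near u p y = Near u p z} z := by
  obtain ⟨x, rfl⟩ := hf
  have h1 : z ∈ {y | Near u p y = Near u p x} := connectedComponentIn_subset _ _ hz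
  have h2 : Near u p z = Near u p x := h1
  rw [h2]
  exact connectedComponentIn_eq hz

private theorem fch_near_iff {n : ℕ} {v a : Fin n → E} (L : Finset (Fin n)) (x : E) {t : ℝ}
    (ht : 0 < t) (hL : Near v a x ⊆ L) (m : Fin n) :
    m ∈ Near v a x ↔ ∀ m' ∈ L, (t * Metric.infDist x (line (a m) (v m))) ^ 2 ≤
      (t * Metric.infDist x (line (a m') (v m'))) ^ 2 := by
  have h0 : ∀ i, 0 ≤ t * Metric.infDist x (line (a i) (v i)) :=
    fun i => mul_nonneg ht.le Metric.infDist_nonneg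
  constructor
  · intro hm m' _
    exact pow_le_pow_left₀ (h0 m) (mul_le_mul_of_nonneg_left (hm m') ht.le) 2
  · intro h j
    have : Nonempty (Fin n) := ⟨m⟩
    obtain ⟨i0, hi0⟩ := Finite.exists_min (fun i => Metric.infDist x (line (a i) (v i)))
    have h1 := h i0 (hL (fun k => hi0 k))
    have h2 := (pow_le_pow_iff_left₀ (h0 m) (h0 i0) (by norm_num)).1 h1
    exact (le_of_mul_le_mul_left h2 ht).trans (hi0 j)

/-- The number of faces which meet the image of an open box in a chart in which the squares of the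
distances are proportional to quadratic polynomials. -/
theorem faces_chart {n : ℕ} {v a : Fin n → E} (χ : (Fin 3 → ℝ) → E) (α β : Fin 3 → ℝ)
    (hχ : ContinuousOn χ {z | ∀ c, α c < z c ∧ z c < β c}) (sc : (Fin 3 → ℝ) → ℝ)
    (hsc : ∀ z, (∀ c, α c < z c ∧ z c < β c) → 0 < sc z) (P : Fin n → MvPolynomial (Fin 3) ℝ)
    (hP : ∀ m, (P m).totalDegree ≤ 2)
    (hPe : ∀ z, (∀ c, α c < z c ∧ z c < β c) → ∀ m,
      MvPolynomial.eval z (P m) = (sc z * Metric.infDist (χ z) (line (a m) (v m))) ^ 2)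
    (L : Finset (Fin n)) (hL : ∀ z, (∀ c, α c < z c ∧ z c < β c) → Near v a (χ z) ⊆ L) :
    {f | f ∈ Faces v a ∧ ∃ z, (∀ c, α c < z c ∧ z c < β c) ∧ χ z ∈ f}.encard ≤
      ((16 * L.card ^ 2 + 13) ^ 3 : ℕ) := by
  classical
  by_contra hcon
  rw [not_le] at hcon
  set N := (16 * L.card ^ 2 + 13) ^ 3 with hN
  have h1 : ((N + 1 : ℕ) : ℕ∞) ≤
      {f | f ∈ Faces v a ∧ ∃ z, (∀ c, α c < z c ∧ z c < β c) ∧ χ z ∈ f}.encard := by
    have := Order.add_one_le_of_lt hcon
    simpa using this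
  obtain ⟨t, hts, htc⟩ := Set.exists_subset_encard_eq h1
  have htf : t.Finite := Set.finite_of_encard_eq_coe htc
  have hz : ∀ f : Set E, ∃ z : Fin 3 → ℝ, f ∈ t → (∀ c, α c < z c ∧ z c < β c) ∧ χ z ∈ f := by
    intro f
    by_cases hf : f ∈ t
    · obtain ⟨z, h⟩ := (hts hf).2
      exact ⟨z, fun _ => h⟩
    · exact ⟨0, fun h => absurd h hf⟩
  choose z hz using hz
  set F : Finset (Fin 3 → ℝ) := htf.toFinset.image z with hF
  have hinj : Set.InjOn z (htf.toFinset : Set (Set E)) := by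
    intro f hf f' hf' h
    rw [Finset.mem_coe, Set.Finite.mem_toFinset] at hf hf'
    have h2 := fch_face_eq (hts hf).1 (hz f hf).2
    have h3 := fch_face_eq (hts hf').1 (hz f' hf').2
    rw [h] at h2
    rw [h2]
    exact h3.symm
  have hcard : F.card = N + 1 := by
    rw [hF, Finset.card_image_of_injOn hinj]
    rw [htf.encard_eq_coe_toFinset_card] at htc
    exact_mod_cast htc
  have key := argmin_count (fun m : L => P m) (fun m => hP m) α β F ?_ ?_
  · rw [Fintype.card_coe, hcard] at key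
    omega
  · intro x hx c
    rw [hF, Finset.mem_image] at hx
    obtain ⟨f, hf, rfl⟩ := hx
    rw [Set.Finite.mem_toFinset] at hf
    exact (hz f hf).1 c
  · intro x hx y hy hxy harg hmem
    rw [hF, Finset.mem_image] at hx hy
    obtain ⟨f, hf, rfl⟩ := hx
    obtain ⟨f', hf', rfl⟩ := hy
    rw [Set.Finite.mem_toFinset] at hf hf'
    set A := {w : Fin 3 → ℝ | (∀ c, α c < w c ∧ w c < β c) ∧
        {m : L | ∀ m' : L, MvPolynomial.eval w (P m) ≤ MvPolynomial.eval w (P m')} =
        {m : L | ∀ m' : L, MvPolynomial.eval (z f) (P m) ≤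
          MvPolynomial.eval (z f) (P m')}} with hA
    have hself : z f ∈ A := ⟨(hz f hf).1, rfl⟩
    have hbox : connectedComponentIn A (z f) ⊆ {z | ∀ c, α c < z c ∧ z c < β c} :=
      fun w hw => (connectedComponentIn_subset _ _ hw : w ∈ A).1
    have hsub : (χ '' connectedComponentIn A (z f)) ⊆ {y | Near v a y = Near v a (χ (z f))} := by
      rintro _ ⟨w, hw, rfl⟩
      have hwA : w ∈ A := connectedComponentIn_subset _ _ hw
      obtain ⟨hwb, hwe⟩ := hwA
      have hLw : Near v a (χ w) ⊆ L := hL _ hwb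
      have hLf : Near v a (χ (z f)) ⊆ L := hL _ (hz f hf).1
      ext i
      by_cases hi : i ∈ L
      · rw [fch_near_iff L _ (hsc w hwb) hLw, fch_near_iff L _ (hsc (z f) (hz f hf).1) hLf]
        have e1 := Set.ext_iff.1 hwe ⟨i, hi⟩
        simp only [Set.mem_ofPred_eq, hPe w hwb, hPe (z f) (hz f hf).1, Subtype.forall] at e1
        exact e1
      · exact ⟨fun h => absurd (hLw h) hi, fun h => absurd (hLf h) hi⟩
    have hpre : IsPreconnected (χ '' connectedComponentIn A (z f)) :=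
      isPreconnected_connectedComponentIn.image _ (hχ.mono hbox)
    have hzf : χ (z f) ∈ χ '' connectedComponentIn A (z f) :=
      ⟨_, mem_connectedComponentIn hself, rfl⟩
    have hzf' : χ (z f') ∈ χ '' connectedComponentIn A (z f) := ⟨_, hmem, rfl⟩
    have hin := hpre.subset_connectedComponentIn hzf hsub hzf'
    rw [← fch_face_eq (hts hf).1 (hz f hf).2] at hin
    have e1 := fch_face_eq (hts hf).1 hin
    have e2 := fch_face_eq (hts hf').1 (hz f' hf').2
    apply hxy
    rw [e1.trans e2.symm]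
-- END fch

-- BEGIN cce
/-- Write `d m z = dv (v m) (ψ m z)`. If the set is not empty take `f`, `z*`, `i`, `j` from it. By `dv_basic` (last clause) and
`lip`: `|d m z - d m z'| ≤ 3 ‖z - z'‖`. So `d m z0 ≥ ρ - 3ρ/16 ≥ ρ/2`; the nearest lines `i`, `j` have
`d < 2ρ` at `z*` (equal distances: `dist`, `sc > 0`), so `d i z0, d j z0 < 2ρ + 3ρ/16 < 3ρ`. In the box
`α c = max (γ c) (z0 c - ρ/8)`, `β c = z0 c + ρ/8` a nearest line `m` of `χ z` has `d m z ≤ d i z ≤ d i z* + 3(ρ/8 + ρ/16)`, so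
`d m z0 < 2ρ + 3(ρ/8+ρ/16) + 3ρ/8 < 3ρ`: `faces_chart` with `L = {m | d m z0 < 3ρ}`, the polynomials of `exists_poly_dv`, then
`cell_weight`. (`z*` is in the box because `γ c < z* c` and `‖z* - z0‖ ≤ ρ/16`.) -/
theorem chart_cell {n : ℕ} {v a : Fin n → E} {χ : (Fin 3 → ℝ) → E} {ψ : Fin n → (Fin 3 → ℝ) → E}
    {sc : (Fin 3 → ℝ) → ℝ} {γ : Fin 3 → ℝ} (hc : IsChart v a χ ψ sc γ) {τ ρ K : ℝ} (hτ : 0 < τ)
    (hK : 0 < K) (hKτ : ∀ k : ℕ, ((16 * k ^ 2 + 13) ^ 3 : ℝ) ≤ K * (1 + τ) ^ k) (hρ : 0 < ρ)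
    (z0 : Fin 3 → ℝ) :
    (({f | f ∈ Faces v a ∧ ∃ z, (∀ c, γ c < z c) ∧ ‖z - z0‖ ≤ ρ / 16 ∧ χ z ∈ f ∧
      (∀ m, ρ ≤ dv (v m) (ψ m z)) ∧ ∃ i j, i ≠ j ∧ i ∈ Near v a (χ z) ∧ j ∈ Near v a (χ z) ∧
      dv (v i) (ψ i z) < 2 * ρ}.encard : ℕ∞) : ℝ≥0∞) ≤
    ENNReal.ofReal K * term τ ρ (fun m => dv (v m) (ψ m z0)) := by
  classical
  set T : Set (Set E) := {f | f ∈ Faces v a ∧ ∃ z, (∀ c, γ c < z c) ∧ ‖z - z0‖ ≤ ρ / 16 ∧ χ z ∈ f ∧
      (∀ m, ρ ≤ dv (v m) (ψ m z)) ∧ ∃ i j, i ≠ j ∧ i ∈ Near v a (χ z) ∧ j ∈ Near v a (χ z) ∧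
      dv (v i) (ψ i z) < 2 * ρ} with hT
  rcases T.eq_empty_or_nonempty with h0 | ⟨f0, hf0⟩
  · rw [h0, Set.encard_empty]
    simp
  obtain ⟨_, zs, hzs, hzs0, _, hge, i, j, hij, hi, hj, hlt⟩ := hf0
  -- the distances are Lipschitz functions
  have hlip : ∀ m z z', dv (v m) (ψ m z) ≤ dv (v m) (ψ m z') + 3 * ‖z - z'‖ := fun m z z' =>
    ((dv_basic (v m)).2.2.2 _ _).trans (by linarith [hc.lip m z z'])
  -- the nearest lines minimise the distances in the chart
  have hnear : ∀ z, (∀ c, γ c < z c) → ∀ m, m ∈ Near v a (χ z) → ∀ m',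
      dv (v m) (ψ m z) ≤ dv (v m') (ψ m' z) := by
    intro z hz m hm m'
    rw [← hc.dist z hz m, ← hc.dist z hz m']
    exact mul_le_mul_of_nonneg_left (hm m') (hc.pos z hz).le
  have hjlt : dv (v j) (ψ j zs) < 2 * ρ := (hnear zs hzs j hj i).trans_lt hlt
  have hsym : ‖z0 - zs‖ ≤ ρ / 16 := by rw [norm_sub_rev]; exact hzs0
  have hD : ∀ m, ρ / 2 ≤ dv (v m) (ψ m z0) := by
    intro m
    have h1 := hlip m zs z0
    have h2 := hge m
    linarith
  have hi3 : dv (v i) (ψ i z0) < 3 * ρ := by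
    have h1 := hlip i z0 zs
    linarith
  have hj3 : dv (v j) (ψ j z0) < 3 * ρ := by
    have h1 := hlip j z0 zs
    linarith
  choose P hP hPe using fun m => exists_poly_dv (v m) (ψ m) (hc.poly m)
  set α : Fin 3 → ℝ := fun c => max (γ c) (z0 c - ρ / 8) with hα
  set β : Fin 3 → ℝ := fun c => z0 c + ρ / 8 with hβ
  have hγ : ∀ z : Fin 3 → ℝ, (∀ c, α c < z c ∧ z c < β c) → ∀ c, γ c < z c := fun z hz c =>
    (le_max_left _ _).trans_lt (hz c).1
  have hbox : ∀ z : Fin 3 → ℝ, (∀ c, α c < z c ∧ z c < β c) → ‖z - z0‖ ≤ ρ / 8 := by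
    intro z hz
    rw [pi_norm_le_iff_of_nonneg (by positivity)]
    intro c
    rw [Pi.sub_apply, Real.norm_eq_abs, abs_le]
    have h1 : z0 c - ρ / 8 < z c := (le_max_right _ _).trans_lt (hz c).1
    have h2 : z c < z0 c + ρ / 8 := (hz c).2
    constructor <;> linarith
  set L : Finset (Fin n) := Finset.univ.filter fun m => dv (v m) (ψ m z0) < 3 * ρ with hL
  have hmem : ∀ m, m ∈ L ↔ dv (v m) (ψ m z0) < 3 * ρ := by
    intro m
    rw [hL, Finset.mem_filter]
    exact ⟨fun h => h.2, fun h => ⟨Finset.mem_univ _, h⟩⟩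
  have hNL : ∀ z, (∀ c, α c < z c ∧ z c < β c) → Near v a (χ z) ⊆ L := by
    intro z hz m hm
    rw [Finset.mem_coe, hmem]
    have h1 := hnear z (hγ z hz) m hm i
    have h2 := hlip i z zs
    have h3 := hlip m z0 z
    have h4 : ‖z - zs‖ ≤ ρ / 8 + ρ / 16 := by
      calc ‖z - zs‖ = ‖(z - z0) + (z0 - zs)‖ := by rw [sub_add_sub_cancel]
        _ ≤ ‖z - z0‖ + ‖z0 - zs‖ := norm_add_le _ _
        _ ≤ ρ / 8 + ρ / 16 := add_le_add (hbox z hz) hsym
    have h5 : ‖z0 - z‖ ≤ ρ / 8 := by rw [norm_sub_rev]; exact hbox z hz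
    linarith
  have hmain := faces_chart χ α β (hc.cont.mono fun z hz => hγ z hz) sc
    (fun z hz => hc.pos z (hγ z hz)) P hP
    (fun z hz m => by rw [hPe m z, hc.dist z (hγ z hz) m]) L hNL
  have hsub : T ⊆ {f | f ∈ Faces v a ∧ ∃ z, (∀ c, α c < z c ∧ z c < β c) ∧ χ z ∈ f} := by
    rintro f ⟨hf, z, hz, hz0, hzf, _⟩
    refine ⟨hf, z, fun c => ?_, hzf⟩
    have h1 := (pi_norm_le_iff_of_nonneg (by positivity)).1 hz0 c
    rw [Pi.sub_apply, Real.norm_eq_abs, abs_le] at h1
    refine ⟨max_lt (hz c) (by linarith [h1.1]), ?_⟩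
    show z c < z0 c + ρ / 8
    linarith [h1.2]
  have hfin : (T.encard : ℕ∞) ≤ ((16 * L.card ^ 2 + 13) ^ 3 : ℕ) := (Set.encard_le_encard hsub).trans hmain
  have hcast : ((T.encard : ℕ∞) : ℝ≥0∞) ≤ (((16 * L.card ^ 2 + 13) ^ 3 : ℕ) : ℝ≥0∞) := by
    have := ENat.toENNReal_le.2 hfin
    rwa [ENat.toENNReal_coe] at this
  exact hcast.trans (cell_weight hτ hK hKτ (fun m => dv (v m) (ψ m z0)) hD hij hi3 hj3 L hmem)
-- END cce

-- BEGIN ncc
private theorem ncc_norm (x : Fin 3 → ℝ) : ‖(WithLp.toLp 2 x : E)‖ ≤ 3 * ‖x‖ := by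
  rw [EuclideanSpace.norm_eq, Real.sqrt_le_iff]
  refine ⟨by positivity, ?_⟩
  have h1 : ∀ c : Fin 3, ‖(WithLp.toLp 2 x : E) c‖ ^ 2 ≤ ‖x‖ ^ 2 := fun c =>
    pow_le_pow_left₀ (norm_nonneg _) (norm_le_pi_norm x c) 2
  have h2 : ∑ c : Fin 3, ‖(WithLp.toLp 2 x : E) c‖ ^ 2 ≤ ∑ _c : Fin 3, ‖x‖ ^ 2 :=
    Finset.sum_le_sum fun c _ => h1 c
  rw [Finset.sum_const, Finset.card_univ, Fintype.card_fin, nsmul_eq_mul] at h2
  push_cast at h2
  have h3 : 0 ≤ ‖x‖ ^ 2 := by positivity
  nlinarith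

/-- `dist`: `infDist_dv`, `o + R • z - a m = R • (z - R⁻¹ • (a m - o))`, `dv_basic` (third clause). `lip`: the Euclidean norm
is at most `√3` times the sup norm. `poly`: `X c - C (b c)`. -/
theorem near_chart {n : ℕ} (v a : Fin n → E) (o : E) {R : ℝ} (hR : 0 < R) :
    IsChart v a (fun z => o + R • (WithLp.toLp 2 z : E)) (fun m => nearPsi (R⁻¹ • (a m - o)))
      (fun _ => R⁻¹) (fun _ => -3) := by
  have hR' : R ≠ 0 := hR.ne'
  refine ⟨?_, fun z _ => inv_pos.2 hR, fun z _ m => ?_, fun m z z' => ?_, fun m c => ?_⟩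
  · refine Continuous.continuousOn ?_
    exact continuous_const.add ((PiLp.continuous_toLp 2 _).const_smul R)
  · rw [infDist_dv]
    have h1 : o + R • (WithLp.toLp 2 z : E) - a m = R • nearPsi (R⁻¹ • (a m - o)) z := by
      rw [nearPsi, smul_sub, smul_smul, mul_inv_cancel₀ hR', one_smul]
      abel
    rw [h1, (dv_basic (v m)).2.2.1, abs_of_pos hR, ← mul_assoc, inv_mul_cancel₀ hR', one_mul]
  · have h1 : nearPsi (R⁻¹ • (a m - o)) z - nearPsi (R⁻¹ • (a m - o)) z' =
        (WithLp.toLp 2 (z - z') : E) := by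
      rw [nearPsi, nearPsi, WithLp.toLp_sub]
      abel
    rw [h1]
    exact ncc_norm _
  · refine ⟨MvPolynomial.X c - MvPolynomial.C ((R⁻¹ • (a m - o)) c), ?_, fun z => ?_⟩
    · refine (MvPolynomial.totalDegree_sub _ _).trans (max_le ?_ ?_)
      · rw [MvPolynomial.totalDegree_X]
      · rw [MvPolynomial.totalDegree_C]
        exact Nat.zero_le _
    · rw [map_sub, MvPolynomial.eval_X, MvPolynomial.eval_C, nearPsi]
      rfl
-- END ncc

-- BEGIN fcc
private lemma fcc_norm (z : Fin 3 → ℝ) (c : Fin 3) (σ σ' : ℝ) (z' : Fin 3 → ℝ) (hσ : σ = σ') :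
    ‖farVec c σ z - farVec c σ' z'‖ ≤ 2 * ‖z - z'‖ := by
  have h0 : |z 0 - z' 0| ≤ ‖z - z'‖ := by
    have := norm_le_pi_norm (z - z') 0
    simpa [Real.norm_eq_abs] using this
  have h1 : |z 1 - z' 1| ≤ ‖z - z'‖ := by
    have := norm_le_pi_norm (z - z') 1
    simpa [Real.norm_eq_abs] using this
  subst hσ
  set N := ‖z - z'‖ with hN
  have hN0 : 0 ≤ N := norm_nonneg _
  have h0' : (z 0 - z' 0) ^ 2 ≤ N ^ 2 := by
    rw [← sq_abs]
    exact pow_le_pow_left₀ (abs_nonneg _) h0 2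
  have h1' : (z 1 - z' 1) ^ 2 ≤ N ^ 2 := by
    rw [← sq_abs]
    exact pow_le_pow_left₀ (abs_nonneg _) h1 2
  rw [EuclideanSpace.norm_eq]
  apply Real.sqrt_le_iff.2
  refine ⟨by positivity, ?_⟩
  have h2 : ∑ i, ‖(farVec c σ z - farVec c σ z') i‖ ^ 2 =
      (z 0 - z' 0) ^ 2 + (z 1 - z' 1) ^ 2 := by
    fin_cases c <;> (simp [farVec, Fin.sum_univ_three]; try ring)
  rw [h2]
  nlinarith

/-- `dist`: `(z 2 / R) • (o + (R / z 2) • y - a m) = y - z 2 • (R⁻¹ • (a m - o))`. `lip`: the two free coordinates of `farVec`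
give at most `√2 ‖z - z'‖`, the other term at most `‖z - z'‖ * ‖b‖ ≤ ‖z - z'‖`. `poly`: `C σ - C (b k) * X 2` or
`X 0 - C (b k) * X 2` or `X 1 - C (b k) * X 2`. -/
theorem far_chart {n : ℕ} (v a : Fin n → E) (o : E) {R : ℝ} (hR : 0 < R)
    (ha : ∀ m, ‖a m - o‖ ≤ R) (c : Fin 3) (σ : ℝ) :
    IsChart v a (fun z => o + (R / z 2) • farVec c σ z) (fun m => farPsi c σ (R⁻¹ • (a m - o)))
      (fun z => z 2 / R) (fun k => if k = 2 then 0 else -3) := by
  have hpos : ∀ z : Fin 3 → ℝ, (∀ k : Fin 3, (if k = 2 then (0 : ℝ) else -3) < z k) → 0 < z 2 := by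
    intro z hz
    have := hz 2
    simpa using this
  refine ⟨?_, ?_, ?_, ?_, ?_⟩
  · have hmul : ContinuousOn (fun z : Fin 3 → ℝ => (R / z 2) • farVec c σ z)
        {z | ∀ k : Fin 3, (if k = 2 then (0 : ℝ) else -3) < z k} := by
      refine ContinuousOn.fun_smul ?_ ?_
      · refine ContinuousOn.div continuousOn_const (continuous_apply 2).continuousOn ?_
        intro z hz
        exact (hpos z hz).ne'
      · refine Continuous.continuousOn ?_
        unfold farVec
        refine (PiLp.continuous_toLp 2 _).comp (continuous_pi fun k => ?_)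
        by_cases hk : k = c
        · simp only [if_pos hk]
          exact continuous_const
        · by_cases hk' : k = c + 1
          · simp only [if_neg hk, if_pos hk']
            exact continuous_apply 0
          · simp only [if_neg hk, if_neg hk']
            exact continuous_apply 1
    exact continuousOn_const.add hmul
  · intro z hz
    exact div_pos (hpos z hz) hR
  · intro z hz m
    have hz2 := hpos z hz
    rw [infDist_dv]
    have h1 : 0 ≤ z 2 / R := (div_pos hz2 hR).le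
    have h2 := (dv_basic (v m)).2.2.1 (z 2 / R) (o + (R / z 2) • farVec c σ z - a m)
    rw [abs_of_nonneg h1] at h2
    show z 2 / R * dv (v m) (o + (R / z 2) • farVec c σ z - a m) = _
    rw [← h2]
    congr 1
    unfold farPsi
    have h3 : (z 2 / R) * (R / z 2) = 1 := by
      field_simp
    rw [smul_sub, smul_add, smul_smul, h3, one_smul, smul_smul, ← div_eq_mul_inv, smul_sub]
    abel
  · intro m z z'
    unfold farPsi
    have h1 : farVec c σ z - z 2 • (R⁻¹ • (a m - o)) - (farVec c σ z' - z' 2 • (R⁻¹ • (a m - o))) =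
        (farVec c σ z - farVec c σ z') - (z 2 - z' 2) • (R⁻¹ • (a m - o)) := by
      rw [sub_smul]
      abel
    rw [h1]
    have h2 : |z 2 - z' 2| ≤ ‖z - z'‖ := by
      have := norm_le_pi_norm (z - z') 2
      simpa [Real.norm_eq_abs] using this
    have h3 : ‖R⁻¹ • (a m - o)‖ ≤ 1 := by
      rw [norm_smul, norm_inv, Real.norm_of_nonneg hR.le, inv_mul_le_iff₀ hR, mul_one]
      exact ha m
    calc ‖(farVec c σ z - farVec c σ z') - (z 2 - z' 2) • (R⁻¹ • (a m - o))‖
        ≤ ‖farVec c σ z - farVec c σ z'‖ + ‖(z 2 - z' 2) • (R⁻¹ • (a m - o))‖ := norm_sub_le _ _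
      _ ≤ 2 * ‖z - z'‖ + ‖z - z'‖ := by
          refine add_le_add (fcc_norm z c σ σ z' rfl) ?_
          rw [norm_smul, Real.norm_eq_abs]
          exact (mul_le_of_le_one_right (abs_nonneg _) h3).trans h2
      _ = 3 * ‖z - z'‖ := by ring
  · intro m k
    set b : ℝ := (R⁻¹ • (a m - o) : E) k with hb
    have hC : (MvPolynomial.C b * MvPolynomial.X 2 : MvPolynomial (Fin 3) ℝ).totalDegree ≤ 1 := by
      refine (MvPolynomial.totalDegree_mul _ _).trans ?_
      rw [MvPolynomial.totalDegree_C, MvPolynomial.totalDegree_X, zero_add]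
    have hgen : ∀ (P : MvPolynomial (Fin 3) ℝ), P.totalDegree ≤ 1 →
        (∀ z, (farVec c σ z) k = MvPolynomial.eval z P) →
        ∃ Q : MvPolynomial (Fin 3) ℝ, Q.totalDegree ≤ 1 ∧
          ∀ z, (farPsi c σ (R⁻¹ • (a m - o)) z) k = MvPolynomial.eval z Q := by
      intro P hP hPe
      refine ⟨P - MvPolynomial.C b * MvPolynomial.X 2,
        (MvPolynomial.totalDegree_sub _ _).trans (max_le hP hC), fun z => ?_⟩
      rw [map_sub, ← hPe z, map_mul, MvPolynomial.eval_C, MvPolynomial.eval_X]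
      unfold farPsi
      rw [PiLp.sub_apply, PiLp.smul_apply, ← hb, smul_eq_mul, mul_comm]
    by_cases hk : k = c
    · refine hgen (MvPolynomial.C σ) (by rw [MvPolynomial.totalDegree_C]; exact Nat.zero_le _)
        fun z => ?_
      rw [MvPolynomial.eval_C]
      simp [farVec, hk]
    · by_cases hk' : k = c + 1
      · refine hgen (MvPolynomial.X 0) (by rw [MvPolynomial.totalDegree_X]) fun z => ?_
        rw [MvPolynomial.eval_X]
        show (if k = c then σ else if k = c + 1 then z 0 else z 1) = z 0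
        rw [if_neg hk, if_pos hk']
      · refine hgen (MvPolynomial.X 1) (by rw [MvPolynomial.totalDegree_X]) fun z => ?_
        rw [MvPolynomial.eval_X]
        show (if k = c then σ else if k = c + 1 then z 0 else z 1) = z 1
        rw [if_neg hk, if_neg hk']
-- END fcc

-- BEGIN rnd
private theorem exists_grid_point_round_le (x : ℝ) (n : ℤ) (h : x ≤ n) : round x ≤ n := by
  have h1 : round x ≤ round (n : ℝ) := by
    rw [round_eq, round_eq]
    exact Int.floor_mono (by linarith)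
  simpa using h1

private theorem exists_grid_point_le_round (x : ℝ) (n : ℤ) (h : (n : ℝ) ≤ x) : n ≤ round x := by
  have h1 : round (n : ℝ) ≤ round x := by
    rw [round_eq, round_eq]
    exact Int.floor_mono (by linarith)
  simpa using h1

/-- `k c = round (8 * z c / lev q)`, `|8 z c / lev q| ≤ 16 / lev q = 4 * 2 ^ q`, an integer, so `|k c| ≤ 4 * 2^q`; the same for
`0 ≤ z 2 ≤ 1/2`: `8 * (1/2) / lev q = 2 ^ q` is an integer. -/
theorem exists_grid_point (z : Fin 3 → ℝ) (hz : ∀ c, |z c| ≤ 2) (q : ℕ) :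
    ∃ z0 ∈ grid q, ‖z - z0‖ ≤ lev q / 16 ∧ (0 ≤ z 2 → z 2 ≤ 1 / 2 → 0 ≤ z0 2 ∧ z0 2 ≤ 1 / 2) := by
  have hp : (0 : ℝ) < 2 ^ q := by positivity
  have hlev : lev q = 4 / 2 ^ q := by
    unfold lev
    rw [one_div, inv_pow]
    ring
  have hl : 0 < lev q / 8 := by
    rw [hlev]
    positivity
  have h2 : lev q / 8 * 2 ^ q = 1 / 2 := by
    rw [hlev]
    field_simp
    norm_num
  set h := lev q / 8 with hh
  have h16 : lev q / 16 = h * (1 / 2) := by
    rw [hh]
    ring
  have hk : ∀ c, |z c - h * (round (z c / h) : ℝ)| ≤ h * (1 / 2) := by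
    intro c
    have e : z c - h * (round (z c / h) : ℝ) = h * (z c / h - round (z c / h)) := by
      field_simp
    rw [e, abs_mul, abs_of_pos hl]
    exact mul_le_mul_of_nonneg_left (abs_sub_round _) hl.le
  refine ⟨fun c => h * (round (z c / h) : ℝ), ?_, ?_, ?_⟩
  · unfold grid
    rw [Finset.mem_image]
    refine ⟨fun c => round (z c / h), ?_, rfl⟩
    rw [Fintype.mem_piFinset]
    intro c
    rw [Finset.mem_Icc]
    have hc := abs_le.mp (hz c)
    constructor
    · apply exists_grid_point_le_round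
      push_cast
      rw [le_div_iff₀ hl]
      nlinarith [hc.1, h2]
    · apply exists_grid_point_round_le
      push_cast
      rw [div_le_iff₀ hl]
      nlinarith [hc.2, h2]
  · rw [h16]
    refine (pi_norm_le_iff_of_nonneg (by positivity)).mpr ?_
    intro c
    rw [Pi.sub_apply, Real.norm_eq_abs]
    exact hk c
  · intro h0 h1
    constructor
    · apply mul_nonneg hl.le
      have : (0 : ℤ) ≤ round (z 2 / h) := by
        apply exists_grid_point_le_round
        rw [Int.cast_zero]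
        positivity
      exact_mod_cast this
    · have : round (z 2 / h) ≤ ((2 ^ q : ℤ)) := by
        apply exists_grid_point_round_le
        push_cast
        rw [div_le_iff₀ hl]
        nlinarith [h2]
      have t : (round (z 2 / h) : ℝ) ≤ 2 ^ q := by exact_mod_cast this
      calc h * (round (z 2 / h) : ℝ) ≤ h * 2 ^ q := mul_le_mul_of_nonneg_left t hl.le
        _ = 1 / 2 := h2
-- END rnd

-- BEGIN lvl
/-- Least `q` with `lev q ≤ r` (`lev q → 0`; `r < 2 * lev 0`). -/
theorem exists_lev {r : ℝ} (h0 : 0 < r) (h8 : r < 8) : ∃ q, lev q ≤ r ∧ r < 2 * lev q := by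
  classical
  have hex : ∃ q, lev q ≤ r := by
    obtain ⟨q, hq⟩ := exists_pow_lt_of_lt_one (show (0 : ℝ) < r / 4 by positivity)
      (show (1 / 2 : ℝ) < 1 by norm_num)
    refine ⟨q, ?_⟩
    unfold lev
    linarith
  refine ⟨Nat.find hex, Nat.find_spec hex, ?_⟩
  rcases Nat.eq_zero_or_eq_succ_pred (Nat.find hex) with h | h
  · rw [h]
    unfold lev
    norm_num
    exact h8
  · have h1 : ¬ lev (Nat.find hex - 1) ≤ r := Nat.find_min hex (by omega)
    have h2 : lev (Nat.find hex - 1) = 2 * lev (Nat.find hex) := by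
      have h3 : Nat.find hex = (Nat.find hex - 1) + 1 := by omega
      conv_rhs => rw [h3]
      unfold lev
      rw [pow_succ]
      ring
    rw [h2] at h1
    exact not_le.1 h1
-- END lvl

-- BEGIN rgn
/-- `w = x - o`, `M = max |w c|`, attained at `c`. If `M ≤ 2R`: `z = w / R`. Otherwise `M = |w c| > 2R`,
`z 2 = R / M < 1/2`, `σ = sign (w c)`, `z 0 = w (c+1) / M`, `z 1 = w (c+2) / M`; in `Fin 3` every `k` is `c`, `c+1` or `c+2`. -/
theorem exists_region (x o : E) {R : ℝ} (hR : 0 < R) :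
    (∃ z : Fin 3 → ℝ, (∀ k, |z k| ≤ 2) ∧ o + R • (WithLp.toLp 2 z : E) = x) ∨
    ∃ (c : Fin 3) (s : Bool) (z : Fin 3 → ℝ), (∀ k, |z k| ≤ 2) ∧ 0 < z 2 ∧ z 2 ≤ 1 / 2 ∧
      o + (R / z 2) • farVec c (sgn s) z = x := by
  set w : E := x - o with hw
  obtain ⟨c, -, hc⟩ := Finset.exists_max_image Finset.univ (fun k : Fin 3 => |w k|)
    Finset.univ_nonempty
  have hc' : ∀ k, |w k| ≤ |w c| := fun k => hc k (Finset.mem_univ k)
  rcases le_or_gt |w c| (2 * R) with h | h
  · left
    refine ⟨fun k => R⁻¹ * w k, fun k => ?_, ?_⟩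
    · rw [abs_mul, abs_inv, abs_of_pos hR, inv_mul_le_iff₀ hR]
      linarith [hc' k]
    · have h1 : R • (WithLp.toLp 2 (fun k => R⁻¹ * w k) : E) = w := by
        ext k
        rw [PiLp.smul_apply, smul_eq_mul]
        show R * (R⁻¹ * w k) = w k
        rw [← mul_assoc, mul_inv_cancel₀ hR.ne', one_mul]
      rw [h1, hw]
      abel
  · right
    set M : ℝ := |w c| with hM
    have hM0 : 0 < M := by linarith
    have hle : ∀ k, |w k / M| ≤ 1 := by
      intro k
      rw [abs_div, abs_of_pos hM0, div_le_one hM0]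
      exact hc' k
    refine ⟨c, decide (0 ≤ w c), ![w (c + 1) / M, w (c + 2) / M, R / M], ?_, ?_, ?_, ?_⟩
    · intro k
      fin_cases k
      · show |w (c + 1) / M| ≤ 2
        linarith [hle (c + 1)]
      · show |w (c + 2) / M| ≤ 2
        linarith [hle (c + 2)]
      · show |R / M| ≤ 2
        rw [abs_of_pos (div_pos hR hM0), div_le_iff₀ hM0]
        linarith
    · show 0 < R / M
      exact div_pos hR hM0
    · show R / M ≤ 1 / 2
      rw [div_le_iff₀ hM0]
      linarith
    · have hsg : M * sgn (decide (0 ≤ w c)) = w c := by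
        unfold sgn
        by_cases h0 : 0 ≤ w c
        · rw [decide_eq_true h0, if_pos rfl, mul_one, hM, abs_of_nonneg h0]
        · rw [decide_eq_false h0, if_neg (by simp), hM, abs_of_neg (not_le.1 h0)]
          ring
      have hRM : R / (R / M) = M := by
        field_simp
      have h1 : (R / (R / M)) • farVec c (sgn (decide (0 ≤ w c)))
          ![w (c + 1) / M, w (c + 2) / M, R / M] = w := by
        rw [hRM]
        ext k
        rw [PiLp.smul_apply, smul_eq_mul]
        show M * (if k = c then sgn (decide (0 ≤ w c)) else if k = c + 1 then w (c + 1) / M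
          else w (c + 2) / M) = w k
        by_cases hk : k = c
        · rw [if_pos hk, hsg, hk]
        · by_cases hk' : k = c + 1
          · rw [if_neg hk, if_pos hk', hk']
            field_simp
          · rw [if_neg hk, if_neg hk']
            have hk'' : k = c + 2 := by
              have key : ∀ k c : Fin 3, ¬ k = c → ¬ k = c + 1 → k = c + 2 := by decide
              exact key k c hk hk'
            rw [hk'']
            field_simp
      show o + (R / (R / M)) • farVec c (sgn (decide (0 ≤ w c)))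
          ![w (c + 1) / M, w (c + 2) / M, R / M] = x
      rw [h1, hw]
      abel
-- END rgn

-- BEGIN nb
private theorem nb_sgn (s : Bool) : |sgn s| = 1 := by cases s <;> simp [sgn]

/-- Near: `‖z‖ ≤ 2 √3 < 4`, so the value is `< 5`. Far: `‖farVec‖ ≤ √(1+4+4) = 3`, `|z 2| ‖b‖ ≤ 1/2`. The lower bound: the
coordinate `c` of `farPsi` has absolute value `≥ 1 - 1/2`. -/
theorem psi_norm {b : E} (hb : ‖b‖ ≤ 1) (z : Fin 3 → ℝ) (hz : ∀ k, |z k| ≤ 2) :
    ‖nearPsi b z‖ < 8 ∧ ∀ (c : Fin 3) (s : Bool), 0 ≤ z 2 → z 2 ≤ 1 / 2 →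
      ‖farPsi c (sgn s) b z‖ ≤ 4 ∧ 1 / 2 ≤ ‖farPsi c (sgn s) b z‖ := by
  have hsq : ∀ k, (z k) ^ 2 ≤ 4 := fun k => by
    have := hz k
    rw [← sq_abs]
    nlinarith [abs_nonneg (z k)]
  refine ⟨?_, fun c s h0 h1 => ?_⟩
  · have h2 : ‖(WithLp.toLp 2 z : E)‖ ≤ 4 := by
      rw [EuclideanSpace.norm_eq, Real.sqrt_le_left (by norm_num), Fin.sum_univ_three]
      simp only [Real.norm_eq_abs, sq_abs]
      have e0 := hsq 0
      have e1 := hsq 1
      have e2 := hsq 2
      linarith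
    have h3 : ‖nearPsi b z‖ ≤ ‖(WithLp.toLp 2 z : E)‖ + ‖b‖ := norm_sub_le _ _
    linarith
  · have hs : (sgn s) ^ 2 = 1 := by rw [← sq_abs, nb_sgn, one_pow]
    have h2 : ‖farVec c (sgn s) z‖ ≤ 3 := by
      rw [EuclideanSpace.norm_eq, Real.sqrt_le_left (by norm_num), Fin.sum_univ_three]
      simp only [Real.norm_eq_abs, sq_abs]
      have e0 := hsq 0
      have e1 := hsq 1
      unfold farVec
      fin_cases c <;> simp [hs] <;> linarith
    have h3 : ‖z 2 • b‖ ≤ 1 / 2 := by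
      rw [norm_smul, Real.norm_eq_abs, abs_of_nonneg h0]
      nlinarith [norm_nonneg b]
    refine ⟨(norm_sub_le _ _).trans (by linarith), ?_⟩
    have h4 : |(farPsi c (sgn s) b z) c| ≤ ‖farPsi c (sgn s) b z‖ := by
      rw [← Real.norm_eq_abs]
      exact PiLp.norm_apply_le _ _
    refine le_trans ?_ h4
    have h5 : (farPsi c (sgn s) b z) c = sgn s - z 2 * b c := by
      unfold farPsi farVec
      simp
    have h6 : |b c| ≤ 1 := by
      rw [← Real.norm_eq_abs]
      exact (PiLp.norm_apply_le _ _).trans hb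
    have h7 : |z 2 * b c| ≤ 1 / 2 := by
      rw [abs_mul, abs_of_nonneg h0]
      nlinarith [abs_nonneg (b c)]
    rw [h5]
    have h8 := abs_sub_abs_le_abs_sub (sgn s) (z 2 * b c)
    rw [nb_sgn] at h8
    linarith
-- END nb

-- BEGIN sgl
private theorem single_faces_closed (p u : E) : IsClosed (line p u) := by
  have h : line p u = (fun y => y - p) ⁻¹' ((Submodule.span ℝ {u} : Submodule ℝ E) : Set E) := by
    ext y
    simp only [line, Set.mem_ofPred_eq, Set.mem_preimage, SetLike.mem_coe,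
      Submodule.mem_span_singleton]
    constructor
    · rintro ⟨t, ht⟩
      exact ⟨t, by rw [ht]; abel⟩
    · rintro ⟨t, ht⟩
      exact ⟨t, by rw [ht]; abel⟩
  rw [h]
  exact (Submodule.closed_of_finiteDimensional _).preimage (continuous_id.sub continuous_const)

private theorem single_faces_iff {n : ℕ} (v a : Fin n → E) (i : Fin n) (x : E) :
    Near v a x = {i} ↔ ∀ j, j ≠ i →
      Metric.infDist x (line (a i) (v i)) < Metric.infDist x (line (a j) (v j)) := by
  constructor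
  · intro h j hj
    have h1 : i ∈ Near v a x := by
      rw [h]
      rfl
    have h2 : j ∉ Near v a x := by
      rw [h]
      exact hj
    have h3 : ∃ k, Metric.infDist x (line (a k) (v k)) < Metric.infDist x (line (a j) (v j)) := by
      by_contra hc
      push Not at hc
      exact h2 hc
    obtain ⟨k, hk⟩ := h3
    exact (h1 k).trans_lt hk
  · intro h
    ext k
    rw [Set.mem_singleton_iff]
    constructor
    · intro hk
      by_contra hki
      exact absurd (hk i) (not_le.2 (h k hki))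
    · rintro rfl j
      by_cases hj : j = k
      · rw [hj]
      · exact (h j hj).le

private theorem single_faces_pre {n : ℕ} (v a : Fin n → E)
    (hd : ∀ i j, i ≠ j → Disjoint (line (a i) (v i)) (line (a j) (v j))) (i : Fin n) :
    IsPreconnected {x | Near v a x = {i}} := by
  have hne : ∀ j, (line (a j) (v j)).Nonempty := fun j => ⟨a j, 0, by rw [zero_smul, add_zero]⟩
  have hline : line (a i) (v i) ⊆ {x | Near v a x = {i}} := by
    intro y hy
    rw [Set.mem_ofPred_eq, single_faces_iff]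
    intro j hj
    rw [Metric.infDist_zero_of_mem hy]
    refine ((single_faces_closed (a j) (v j)).notMem_iff_infDist_pos (hne j)).1 fun hyj => ?_
    exact Set.disjoint_left.1 (hd i j (Ne.symm hj)) hy hyj
  have hlp : IsPreconnected (line (a i) (v i)) := by
    have h1 : line (a i) (v i) = Set.range (fun t : ℝ => a i + t • v i) := by
      ext y
      exact ⟨fun ⟨t, ht⟩ => ⟨t, ht.symm⟩, fun ⟨t, ht⟩ => ⟨t, ht.symm⟩⟩
    rw [h1]
    exact isPreconnected_range (by fun_prop)
  have hai : a i ∈ line (a i) (v i) := ⟨0, by rw [zero_smul, add_zero]⟩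
  refine isPreconnected_of_forall (a i) fun x hx => ?_
  obtain ⟨y, hy, hxy⟩ := (single_faces_closed (a i) (v i)).exists_infDist_eq_dist (hne i) x
  refine ⟨segment ℝ x y ∪ line (a i) (v i), Set.union_subset ?_ hline, Or.inr hai,
    Or.inl (left_mem_segment ℝ x y), IsPreconnected.union y (right_mem_segment ℝ x y) hy
      (convex_segment x y).isPreconnected hlp⟩
  rintro z ⟨α, β, hα, hβ, hαβ, rfl⟩
  rw [Set.mem_ofPred_eq, single_faces_iff] at hx ⊢
  intro j hj
  have h1 := hx j hj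
  have h2 : dist (α • x + β • y) y = α * dist x y := by
    rw [dist_eq_norm, dist_eq_norm]
    have e : α • x + β • y - y = α • (x - y) := by
      have : β = 1 - α := by linarith
      rw [this]
      module
    rw [e, norm_smul, Real.norm_eq_abs, abs_of_nonneg hα]
  have h3 : dist x (α • x + β • y) = β * dist x y := by
    rw [dist_eq_norm, dist_eq_norm]
    have e : x - (α • x + β • y) = β • (x - y) := by
      have : α = 1 - β := by linarith
      rw [this]
      module
    rw [e, norm_smul, Real.norm_eq_abs, abs_of_nonneg hβ]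
  have h4 : Metric.infDist (α • x + β • y) (line (a i) (v i)) ≤ α * dist x y := by
    rw [← h2]
    exact Metric.infDist_le_dist_of_mem hy
  have h5 : Metric.infDist x (line (a j) (v j)) ≤
      Metric.infDist (α • x + β • y) (line (a j) (v j)) + dist x (α • x + β • y) :=
    Metric.infDist_le_infDist_add_dist
  rw [h3] at h5
  rw [hxy] at h1
  have h6 : α * dist x y + β * dist x y = dist x y := by
    rw [← add_mul, hαβ, one_mul]
  linarith

/-- Let `Near v a x = {i}`. On the segment from `x` to the nearest point `y` of the line `i` (`line` is closed and not empty)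
the distance to the line `i` decreases with speed 1, the others with speed at most 1, so `Near = {i}` on the whole segment
(at `y`: the distance is `0`, and `> 0` to the others by the strict inequality at `x`). The whole line `i` has `Near = {i}` (the
lines are disjoint and closed: distance `> 0`), it is connected (image of `ℝ`). So `{x | Near v a x = {i}}` is preconnected and
there is at most one face for every `i`. -/
theorem single_faces {n : ℕ} (v a : Fin n → E)
    (hd : ∀ i j, i ≠ j → Disjoint (line (a i) (v i)) (line (a j) (v j))) :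
    {f | f ∈ Faces v a ∧ ∃ x ∈ f, ∃ i, Near v a x = {i}}.encard ≤ n := by
  have hsub : {f | f ∈ Faces v a ∧ ∃ x ∈ f, ∃ i, Near v a x = {i}} ⊆
      (fun i : Fin n => {x | Near v a x = {i}}) '' Set.univ := by
    rintro f ⟨⟨x0, rfl⟩, x, hx, i, hi⟩
    refine ⟨i, Set.mem_univ _, ?_⟩
    have h0 : x ∈ {y | Near v a y = Near v a x0} := connectedComponentIn_subset _ _ hx
    have h1 : Near v a x = Near v a x0 := h0
    rw [connectedComponentIn_eq hx, ← h1, hi]
    exact ((single_faces_pre v a hd i).connectedComponentIn hi).symm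
  refine (Set.encard_le_encard hsub).trans ((Set.encard_image_le _ _).trans ?_)
  rw [Set.encard_univ, ENat.card_eq_coe_fintype_card, Fintype.card_fin]
-- END sgl

-- BEGIN cov
/-- counting measure on the set of all subsets of space -/
private noncomputable def covCount : @Measure (Set E) ⊤ :=
  @Measure.count (Set E) ⊤

private theorem cov_count (s : Set (Set E)) : covCount s = ((s.encard : ℕ∞) : ℝ≥0∞) :=
  @Measure.count_apply (Set E) ⊤ s MeasurableSpace.measurableSet_top

private theorem cov_union (A : Set (Set E)) (B : ℕ → (Fin 3 → ℝ) → Set (Set E))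
    (C : Fin 3 → Bool → ℕ → (Fin 3 → ℝ) → Set (Set E)) (G H : ℕ → Finset (Fin 3 → ℝ))
    (S : Set (Set E))
    (h : ∀ f ∈ S, f ∈ A ∨ (∃ q, ∃ z0 ∈ G q, f ∈ B q z0) ∨
      ∃ c s q, ∃ z0 ∈ H q, f ∈ C c s q z0) :
    ((S.encard : ℕ∞) : ℝ≥0∞) ≤ ((A.encard : ℕ∞) : ℝ≥0∞) +
      (∑' q, ∑ z0 ∈ G q, (((B q z0).encard : ℕ∞) : ℝ≥0∞)) +
      ∑ c : Fin 3, ∑ s : Bool, ∑' q, ∑ z0 ∈ H q, (((C c s q z0).encard : ℕ∞) : ℝ≥0∞) := by
  simp only [← cov_count]
  have hsub : S ⊆ (A ∪ ⋃ q, ⋃ z0 ∈ G q, B q z0) ∪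
      ⋃ c ∈ (Finset.univ : Finset (Fin 3)), ⋃ s ∈ (Finset.univ : Finset Bool),
        ⋃ q, ⋃ z0 ∈ H q, C c s q z0 := by
    intro f hf
    rcases h f hf with h1 | ⟨q, z0, hz, h1⟩ | ⟨c, s, q, z0, hz, h1⟩
    · exact Or.inl (Or.inl h1)
    · refine Or.inl (Or.inr ?_)
      simp only [Set.mem_iUnion]
      exact ⟨q, z0, hz, h1⟩
    · refine Or.inr ?_
      simp only [Set.mem_iUnion]
      exact ⟨c, Finset.mem_univ c, s, Finset.mem_univ s, q, z0, hz, h1⟩
  have m1 : covCount (⋃ q, ⋃ z0 ∈ G q, B q z0) ≤ ∑' q, ∑ z0 ∈ G q, covCount (B q z0) :=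
    (measure_iUnion_le _).trans (ENNReal.tsum_le_tsum fun q => measure_biUnion_finset_le _ _)
  have m2 : covCount (⋃ c ∈ (Finset.univ : Finset (Fin 3)), ⋃ s ∈ (Finset.univ : Finset Bool),
        ⋃ q, ⋃ z0 ∈ H q, C c s q z0) ≤
      ∑ c : Fin 3, ∑ s : Bool, ∑' q, ∑ z0 ∈ H q, covCount (C c s q z0) :=
    (measure_biUnion_finset_le _ _).trans (Finset.sum_le_sum fun c _ =>
      (measure_biUnion_finset_le _ _).trans (Finset.sum_le_sum fun s _ =>
        (measure_iUnion_le _).trans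
          (ENNReal.tsum_le_tsum fun q => measure_biUnion_finset_le _ _)))
  calc covCount S ≤ covCount ((A ∪ ⋃ q, ⋃ z0 ∈ G q, B q z0) ∪
      ⋃ c ∈ (Finset.univ : Finset (Fin 3)), ⋃ s ∈ (Finset.univ : Finset Bool),
        ⋃ q, ⋃ z0 ∈ H q, C c s q z0) := measure_mono hsub
    _ ≤ _ := (measure_union_le _ _).trans (add_le_add ((measure_union_le _ _).trans
      (add_le_add le_rfl m1)) m2)

private theorem cov_closed (a v : E) : IsClosed (line a v) := by
  by_cases hv : v = 0
  · have : line a v = {a} := by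
      ext y
      simp [line, hv]
    rw [this]
    exact isClosed_singleton
  · have : line a v = (fun t : ℝ => a + t • v) '' Set.univ := by
      ext y
      simp only [line, Set.mem_ofPred_eq, Set.image_univ, Set.mem_range]
      exact ⟨fun ⟨t, h⟩ => ⟨t, h.symm⟩, fun ⟨t, h⟩ => ⟨t, h.symm⟩⟩
    rw [this, Set.image_univ]
    have h1 : IsClosed (Set.range fun t : ℝ => t • v) := by
      have h2 : (Set.range fun t : ℝ => t • v) = (ℝ ∙ v : Submodule ℝ E) := by
        ext y
        simp [Submodule.mem_span_singleton]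
      rw [h2]
      exact Submodule.closed_of_finiteDimensional _
    have h3 : (Set.range fun t : ℝ => a + t • v) =
        (Homeomorph.addLeft a) '' (Set.range fun t : ℝ => t • v) := by
      rw [← Set.range_comp]
      rfl
    rw [h3]
    exact (Homeomorph.isClosed_image _).2 h1

/-- one point of a face with two nearest lines: the level and the grid point in a chart -/
private theorem cov_point {n : ℕ} {v a : Fin n → E} {χ : (Fin 3 → ℝ) → E}
    {ψ : Fin n → (Fin 3 → ℝ) → E} {sc : (Fin 3 → ℝ) → ℝ} {γ : Fin 3 → ℝ}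
    (hc : IsChart v a χ ψ sc γ)
    (hd : ∀ i j, i ≠ j → Disjoint (line (a i) (v i)) (line (a j) (v j))) {z : Fin 3 → ℝ}
    (hz : ∀ c, γ c < z c) (h8 : ∀ m, ‖ψ m z‖ < 8) {i j : Fin n} (hij : i ≠ j)
    (hi : i ∈ Near v a (χ z)) (hj : j ∈ Near v a (χ z)) :
    ∃ q, (∀ m, lev q ≤ dv (v m) (ψ m z)) ∧ dv (v i) (ψ i z) < 2 * lev q := by
  have hs := hc.pos z hz
  have h0 : 0 < dv (v i) (ψ i z) := by
    rw [← hc.dist z hz i]
    refine mul_pos hs ?_
    by_contra hcon
    have hne : ∀ k, (line (a k) (v k)).Nonempty := fun k => ⟨a k, 0, by simp⟩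
    have h1 : Metric.infDist (χ z) (line (a i) (v i)) = 0 :=
      le_antisymm (not_lt.1 hcon) Metric.infDist_nonneg
    have h2 : Metric.infDist (χ z) (line (a j) (v j)) = 0 :=
      le_antisymm ((hj i).trans h1.le) Metric.infDist_nonneg
    have e1 := ((cov_closed (a i) (v i)).mem_iff_infDist_zero (hne i)).2 h1
    have e2 := ((cov_closed (a j) (v j)).mem_iff_infDist_zero (hne j)).2 h2
    exact Set.disjoint_left.1 (hd i j hij) e1 e2
  have h1 : dv (v i) (ψ i z) < 8 := ((dv_basic (v i)).2.1 _).trans_lt (h8 i)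
  obtain ⟨q, hq1, hq2⟩ := exists_lev h0 h1
  refine ⟨q, fun m => hq1.trans ?_, hq2⟩
  rw [← hc.dist z hz i, ← hc.dist z hz m]
  exact mul_le_mul_of_nonneg_left (hi m) hs.le

theorem faces_le {n : ℕ} (hn : 0 < n) {τ K : ℝ} (hτ : 0 < τ) (hK : 0 < K)
    (hKτ : ∀ k : ℕ, ((16 * k ^ 2 + 13) ^ 3 : ℝ) ≤ K * (1 + τ) ^ k) (v a : Fin n → E) (o : E) {R : ℝ}
    (hR : 0 < R) (ha : ∀ m, ‖a m - o‖ ≤ R)
    (hd : ∀ i j, i ≠ j → Disjoint (line (a i) (v i)) (line (a j) (v j))) :
    (((Faces v a).encard : ℕ∞) : ℝ≥0∞) ≤ n +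
      (∑' q, ∑ z0 ∈ grid q, ENNReal.ofReal K *
        term τ (lev q) (fun m => dv (v m) (nearPsi (R⁻¹ • (a m - o)) z0))) +
      ∑ c : Fin 3, ∑ s : Bool, ∑' q, ∑ z0 ∈ farGrid q, ENNReal.ofReal K *
        term τ (lev q) (fun m => dv (v m) (farPsi c (sgn s) (R⁻¹ • (a m - o)) z0)) := by
  classical
  set ψ₀ : Fin n → (Fin 3 → ℝ) → E := fun m => nearPsi (R⁻¹ • (a m - o)) with hψ₀
  set χ₀ : (Fin 3 → ℝ) → E := fun z => o + R • (WithLp.toLp 2 z : E) with hχ₀
  set ψ₁ : Fin 3 → Bool → Fin n → (Fin 3 → ℝ) → E :=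
    fun c s m => farPsi c (sgn s) (R⁻¹ • (a m - o)) with hψ₁
  set χ₁ : Fin 3 → Bool → (Fin 3 → ℝ) → E :=
    fun c s z => o + (R / z 2) • farVec c (sgn s) z with hχ₁
  have hc0 : IsChart v a χ₀ ψ₀ (fun _ => R⁻¹) (fun _ => -3) := near_chart v a o hR
  have hc1 : ∀ c s, IsChart v a (χ₁ c s) (ψ₁ c s) (fun z => z 2 / R)
      (fun k => if k = 2 then 0 else -3) := fun c s => far_chart v a o hR ha c (sgn s)
  have hb : ∀ m, ‖R⁻¹ • (a m - o)‖ ≤ 1 := by
    intro m
    rw [norm_smul, Real.norm_eq_abs, abs_of_pos (inv_pos.2 hR)]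
    calc R⁻¹ * ‖a m - o‖ ≤ R⁻¹ * R := mul_le_mul_of_nonneg_left (ha m) (inv_pos.2 hR).le
      _ = 1 := inv_mul_cancel₀ hR.ne'
  have hlev : ∀ q, 0 < lev q := fun q => by
    unfold lev
    positivity
  refine (cov_union {f | f ∈ Faces v a ∧ ∃ x ∈ f, ∃ i, Near v a x = {i}}
    (fun q z0 => {f | f ∈ Faces v a ∧ ∃ z, (∀ c, (-3 : ℝ) < z c) ∧ ‖z - z0‖ ≤ lev q / 16 ∧
      χ₀ z ∈ f ∧ (∀ m, lev q ≤ dv (v m) (ψ₀ m z)) ∧ ∃ i j, i ≠ j ∧ i ∈ Near v a (χ₀ z) ∧
      j ∈ Near v a (χ₀ z) ∧ dv (v i) (ψ₀ i z) < 2 * lev q})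
    (fun c s q z0 => {f | f ∈ Faces v a ∧ ∃ z, (∀ k, (if k = (2 : Fin 3) then (0 : ℝ) else -3) < z k) ∧
      ‖z - z0‖ ≤ lev q / 16 ∧ χ₁ c s z ∈ f ∧ (∀ m, lev q ≤ dv (v m) (ψ₁ c s m z)) ∧
      ∃ i j, i ≠ j ∧ i ∈ Near v a (χ₁ c s z) ∧
      j ∈ Near v a (χ₁ c s z) ∧ dv (v i) (ψ₁ c s i z) < 2 * lev q}) grid farGrid (Faces v a) ?_).trans ?_
  · intro f hf
    obtain ⟨x, hx⟩ := hf
    have hxf : x ∈ f := by
      rw [hx]
      exact mem_connectedComponentIn rfl
    have hf : f ∈ Faces v a := ⟨x, hx⟩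
    have : Nonempty (Fin n) := ⟨⟨0, hn⟩⟩
    obtain ⟨i, hi⟩ := Finite.exists_min (fun i => Metric.infDist x (line (a i) (v i)))
    have hi : i ∈ Near v a x := fun j => hi j
    by_cases h1 : ∃ i, Near v a x = {i}
    · exact Or.inl ⟨hf, x, hxf, h1⟩
    · have h2 : ∃ j, i ≠ j ∧ j ∈ Near v a x := by
        by_contra hcon
        push Not at hcon
        apply h1
        refine ⟨i, ?_⟩
        ext k
        rw [Set.mem_singleton_iff]
        constructor
        · intro hk
          by_contra hne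
          exact hcon k (Ne.symm hne) hk
        · rintro rfl
          exact hi
      obtain ⟨j, hij, hj⟩ := h2
      refine Or.inr ?_
      rcases exists_region x o hR with ⟨z, hz, hzx⟩ | ⟨c, s, z, hz, hz0, hz1, hzx⟩
      · left
        have hzx : χ₀ z = x := hzx
        have hg : ∀ c, (-3 : ℝ) < z c := fun c => by
          have := (abs_le.1 (hz c)).1
          linarith
        obtain ⟨q, h3, h4⟩ := cov_point hc0 hd (z := z) hg
          (fun m => (psi_norm (hb m) z hz).1) hij (by rw [hzx]; exact hi) (by rw [hzx]; exact hj)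
        obtain ⟨z0, hz0, hzz, _⟩ := exists_grid_point z hz q
        exact ⟨q, z0, hz0, hf, z, hg, hzz, by rw [hzx]; exact hxf, h3, i, j, hij,
          by rw [hzx]; exact hi, by rw [hzx]; exact hj, h4⟩
      · right
        have hzx : χ₁ c s z = x := hzx
        have hg : ∀ k, (if k = (2 : Fin 3) then (0 : ℝ) else -3) < z k := fun k => by
          split_ifs with hk
          · rw [hk]
            exact hz0
          · have := (abs_le.1 (hz k)).1
            linarith
        obtain ⟨q, h3, h4⟩ := cov_point (hc1 c s) hd (z := z) hg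
          (fun m => lt_of_le_of_lt ((psi_norm (hb m) z hz).2 c s hz0.le hz1).1 (by norm_num)) hij
          (by rw [hzx]; exact hi) (by rw [hzx]; exact hj)
        obtain ⟨z0, hzg, hzz, hz2⟩ := exists_grid_point z hz q
        exact ⟨c, s, q, z0, Finset.mem_filter.2 ⟨hzg, hz2 hz0.le hz1⟩, hf, z, hg, hzz,
          by rw [hzx]; exact hxf, h3, i, j, hij,
          by rw [hzx]; exact hi, by rw [hzx]; exact hj, h4⟩
  · refine add_le_add (add_le_add ?_ ?_) ?_
    · have := single_faces v a hd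
      calc (({f | f ∈ Faces v a ∧ ∃ x ∈ f, ∃ i, Near v a x = {i}}.encard : ℕ∞) : ℝ≥0∞) ≤
          (((n : ℕ) : ℕ∞) : ℝ≥0∞) := by exact_mod_cast this
        _ = n := by simp
    · exact ENNReal.tsum_le_tsum fun q => Finset.sum_le_sum fun z0 _ =>
        chart_cell hc0 hτ hK hKτ (hlev q) z0
    · exact Finset.sum_le_sum fun c _ => Finset.sum_le_sum fun s _ =>
        ENNReal.tsum_le_tsum fun q => Finset.sum_le_sum fun z0 _ =>
          chart_cell (hc1 c s) hτ hK hKτ (hlev q) z0
-- END cov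

-- BEGIN dis
/-- As `Vor.ae_disjoint` (row dsj of Vor/Cov, `Vor.dsj_null`). If `a i + t v_i = a j + s v_j`: `s = 0` gives `a i - a j = -t v_i`
with `t ≠ 0`, so `v_i ∈ ℝ (a i - a j)`: null set for `v_i`; `s ≠ 0` gives `v_j ∈ span (a i - a j, v_i)`: null set for `v_j` for every
fixed `v_i` (`dsj_null` with `c = 0`). -/
theorem ae_disjoint_dir {n : ℕ} {a : Fin n → E} (ha : Function.Injective a) (μ : Fin n → Measure E)
    [∀ i, IsProbabilityMeasure (μ i)] (hμ : ∀ i, μ i ≪ volume) :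
    ∀ᵐ v ∂(Measure.pi μ), ∀ i j, i ≠ j → Disjoint (line (a i) (v i)) (line (a j) (v j)) := by
  have key : ∀ i j : Fin n, i ≠ j →
      ∀ᵐ v ∂(Measure.pi μ), ¬ (v i ∈ Submodule.span ℝ {a i - a j, v j}) := by
    intro i j hij
    obtain ⟨w, hw⟩ : ∃ w : E, w = a i - a j := ⟨_, rfl⟩
    rw [← hw]
    clear hw ha
    cases n with
    | zero => exact i.elim0
    | succ m =>
      obtain ⟨k, hk⟩ := Fin.exists_succAbove_eq (Ne.symm hij)
      have mp := measurePreserving_piFinSuccAbove (α := fun _ => E) μ i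
      set S : Set (E × (Fin m → E)) := {q | q.1 ∈ Submodule.span ℝ {w, q.2 k}} with hS
      have hSr : S = Set.range (fun p : (ℝ × ℝ) × (Fin m → E) =>
          ((p.1.1 • w + p.1.2 • p.2 k, p.2) : E × (Fin m → E))) := by
        ext q
        rw [hS, Set.mem_ofPred_eq, Submodule.mem_span_pair]
        constructor
        · rintro ⟨x, y, h⟩
          exact ⟨((x, y), q.2), Prod.ext h rfl⟩
        · rintro ⟨⟨⟨x, y⟩, z⟩, rfl⟩
          exact ⟨x, y, rfl⟩
      have hSm : MeasurableSet S := by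
        have hc : Continuous (fun p : (ℝ × ℝ) × (Fin m → E) =>
          ((p.1.1 • w + p.1.2 • p.2 k, p.2) : E × (Fin m → E))) := by fun_prop
        rw [hSr]
        obtain ⟨K, hK, hU⟩ := isSigmaCompact_range hc
        rw [← hU]
        exact MeasurableSet.iUnion fun n => (hK n).measurableSet
      have hS0 : ((μ i).prod (Measure.pi fun j => μ (i.succAbove j))) S = 0 := by
        rw [Measure.prod_apply_symm hSm]
        rw [lintegral_eq_zero_of_ae_eq_zero]
        refine Filter.Eventually.of_forall fun y => ?_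
        have h1 := dsj_null w (y k) 0 (μ i) (hμ i)
        simp only [sub_zero] at h1
        exact h1
      have hae : ∀ᵐ q ∂((μ i).prod (Measure.pi fun j => μ (i.succAbove j))), ¬ (q ∈ S) :=
        (measure_eq_zero_iff_ae_notMem).1 hS0
      have h2 := mp.quasiMeasurePreserving.ae hae
      filter_upwards [h2] with p hp hmem
      apply hp
      rw [← hk] at hmem
      simp only [hS]
      exact hmem
  rw [ae_all_iff]
  intro i
  rw [ae_all_iff]
  intro j
  by_cases hij : i = j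
  · exact Filter.Eventually.of_forall fun p h => absurd hij h
  filter_upwards [key i j hij, key j i (Ne.symm hij)] with v h1 h2 _
  rw [Set.disjoint_left]
  rintro y ⟨t, ht⟩ ⟨s, hs⟩
  have e : a i + t • v i = a j + s • v j := ht.symm.trans hs
  by_cases hs0 : s = 0
  · rw [hs0, zero_smul, add_zero] at e
    have ht0 : t ≠ 0 := by
      rintro rfl
      rw [zero_smul, add_zero] at e
      exact hij (ha e)
    apply h1
    rw [Submodule.mem_span_pair]
    refine ⟨-t⁻¹, 0, ?_⟩
    have e2 : a i - a j = -(t • v i) := by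
      rw [← e]
      abel
    rw [e2, smul_neg, neg_smul, neg_neg, smul_smul, inv_mul_cancel₀ ht0, one_smul, zero_smul,
      add_zero]
  · apply h2
    rw [Submodule.mem_span_pair]
    refine ⟨-s⁻¹, s⁻¹ * t, ?_⟩
    have e2 : s • v j = (a i - a j) + t • v i := by
      have e3 : s • v j = (a i + t • v i) - a j := by
        rw [e]
        abel
      rw [e3]
      abel
    have e4 : v j = s⁻¹ • ((a i - a j) + t • v i) := by
      rw [← e2, smul_smul, inv_mul_cancel₀ hs0, one_smul]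
    have e5 : (-s⁻¹) • (a j - a i) + (s⁻¹ * t) • v i = s⁻¹ • ((a i - a j) + t • v i) := by
      rw [smul_add, smul_smul, neg_smul, ← smul_neg, neg_sub]
    rw [e5, ← e4]
-- END dis

end Pool.Agent.Vrd
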