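import Pool.Agent.Vor.Faces

/-!
Voronoi diagrams of lines through given points with random directions: definitions
-/

set_option autoImplicit false

namespace Pool.Agent.Vrd

open MeasureTheory Set Vor
open scoped ENNReal NNReal

/-- the distance of `z` to the line through the origin with direction `v` (for `v = 0`: to `0`) -/
noncomputable def dv (v z : E) : ℝ := dl (‖v‖⁻¹ • v) z

/-- the weight of one line in a cell of level `ρ`; `D` is the distance of the centre of the cell -/
noncomputable def wq (τ ρ : ℝ) (star : Prop) [Decidable star] (D : ℝ) : ℝ≥0∞ :=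
  if ρ / 2 ≤ D then (if D < 3 * ρ then ENNReal.ofReal (1 + τ) else (if star then 0 else 1)) else 0

/-- the weight of a cell -/
noncomputable def term {n : ℕ} (τ ρ : ℝ) (D : Fin n → ℝ) : ℝ≥0∞ :=
  ∑ i, ∑ j, if i = j then 0 else ∏ m, wq τ ρ (m = i ∨ m = j) (D m)

/-- the expected weight of a cell up to constants -/
noncomputable def phi {n : ℕ} (κ ρ : ℝ) (D : Fin n → ℝ) : ℝ :=
  (∑ i, ∑ j, if i = j then 0 else (ρ / D i) ^ 2 * (ρ / D j) ^ 2) *
    Real.exp (-(κ * ∑ m, (ρ / D m) ^ 2))

open Classical in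
/-- `phi`, if the cell has a positive weight at all -/
noncomputable def psi {n : ℕ} (κ ρ : ℝ) (D : Fin n → ℝ) : ℝ :=
  if ∀ m, ρ / 2 ≤ D m then phi κ ρ D else 0

/-- the level number `q` -/
noncomputable def lev (q : ℕ) : ℝ := 4 * (1 / 2) ^ q

/-- the grid of the level number `q` -/
noncomputable def grid (q : ℕ) : Finset (Fin 3 → ℝ) :=
  (Fintype.piFinset fun _ : Fin 3 => Finset.Icc (-(4 * 2 ^ q : ℤ)) (4 * 2 ^ q)).image
    (fun k c => lev q / 8 * (k c : ℝ))

/-- a chart `χ` in which the distances to the lines are those of affine functions `ψ m` to lines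
through the origin, up to the common scale factor `sc` -/
structure IsChart {n : ℕ} (v a : Fin n → E) (χ : (Fin 3 → ℝ) → E) (ψ : Fin n → (Fin 3 → ℝ) → E)
    (sc : (Fin 3 → ℝ) → ℝ) (γ : Fin 3 → ℝ) : Prop where
  cont : ContinuousOn χ {z | ∀ c, γ c < z c}
  pos : ∀ z, (∀ c, γ c < z c) → 0 < sc z
  dist : ∀ z, (∀ c, γ c < z c) → ∀ m,
    sc z * Metric.infDist (χ z) (line (a m) (v m)) = dv (v m) (ψ m z)
  lip : ∀ m z z', ‖ψ m z - ψ m z'‖ ≤ 3 * ‖z - z'‖
  poly : ∀ m c, ∃ Q : MvPolynomial (Fin 3) ℝ, Q.totalDegree ≤ 1 ∧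
    ∀ z, (ψ m z) c = MvPolynomial.eval z Q

/-- the near chart -/
noncomputable def nearPsi (b : E) (z : Fin 3 → ℝ) : E := WithLp.toLp 2 z - b

/-- the vector with coordinate `σ` in place `c` and the coordinates `z 0`, `z 1` in the others -/
noncomputable def farVec (c : Fin 3) (σ : ℝ) (z : Fin 3 → ℝ) : E :=
  WithLp.toLp 2 (fun k => if k = c then σ else if k = c + 1 then z 0 else z 1)

/-- the far charts -/
noncomputable def farPsi (c : Fin 3) (σ : ℝ) (b : E) (z : Fin 3 → ℝ) : E := farVec c σ z - z 2 • b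

/-- the part of the grid which is used in the far charts -/
noncomputable def farGrid (q : ℕ) : Finset (Fin 3 → ℝ) :=
  (grid q).filter fun z => 0 ≤ z 2 ∧ z 2 ≤ 1 / 2

/-- the sign belonging to a Boolean -/
def sgn (s : Bool) : ℝ := if s then 1 else -1

end Pool.Agent.Vrd
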