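import Pool.Agent.Vrd.Defs

/-!
Distances to lines, and the probability that a random line through a given point comes close
-/

set_option autoImplicit false

namespace Pool.Agent.Vrd

open MeasureTheory Set Vor
open scoped ENNReal NNReal

-- BEGIN dvi
/-- If `v ≠ 0` then `line a v = line a (‖v‖⁻¹ • v)` and `Vor.infDist_line`. If `v = 0` then `line a 0 = {a}` and
`dv 0 z = dl 0 z = ‖z‖`. -/
theorem infDist_dv (x a v : E) : Metric.infDist x (line a v) = dv v (x - a) := by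
  by_cases hv : v = 0
  · have h1 : line a v = {a} := by
      ext y
      constructor
      · rintro ⟨t, ht⟩
        rw [hv, smul_zero, add_zero] at ht
        exact ht
      · intro hy
        refine ⟨0, ?_⟩
        rw [zero_smul, add_zero]
        exact hy
    rw [h1, Metric.infDist_singleton, dist_eq_norm]
    unfold dv dl
    rw [hv, smul_zero, smul_zero, sub_zero]
  · have hn : ‖v‖ ≠ 0 := norm_ne_zero_iff.2 hv
    have hu : ‖(‖v‖⁻¹ • v : E)‖ = 1 := by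
      rw [norm_smul, norm_inv, norm_norm, inv_mul_cancel₀ hn]
    have h1 : line a v = line a (‖v‖⁻¹ • v) := by
      ext y
      constructor
      · rintro ⟨t, ht⟩
        refine ⟨t * ‖v‖, ?_⟩
        rw [ht, smul_smul, mul_assoc, mul_inv_cancel₀ hn, mul_one]
      · rintro ⟨t, ht⟩
        refine ⟨t * ‖v‖⁻¹, ?_⟩
        rw [ht, smul_smul]
    rw [h1, infDist_line hu]
    rfl
-- END dvi

-- BEGIN dvb
/-- From `Vor.dl_basic` for `v ≠ 0`; for `v = 0` everything is about the norm. -/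
theorem dv_basic (v : E) : (∀ z, 0 ≤ dv v z) ∧ (∀ z, dv v z ≤ ‖z‖) ∧
    (∀ (t : ℝ) (z : E), dv v (t • z) = |t| * dv v z) ∧ (∀ z z', dv v z ≤ dv v z' + ‖z - z'‖) := by
  by_cases hv : v = 0
  · have h0 : ∀ z : E, dv v z = ‖z‖ := by
      intro z
      unfold dv dl
      rw [hv, smul_zero, smul_zero, sub_zero]
    simp only [h0]
    refine ⟨fun z => norm_nonneg z, fun z => le_rfl, fun t z => ?_, fun z z' => ?_⟩
    · rw [norm_smul, Real.norm_eq_abs]
    · have h := norm_add_le z' (z - z')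
      rwa [add_sub_cancel] at h
  · have hu : ‖‖v‖⁻¹ • v‖ = 1 := by
      rw [norm_smul, norm_inv, norm_norm, inv_mul_cancel₀ (norm_ne_zero_iff.2 hv)]
    have h := dl_basic hu
    exact ⟨h.2.1, h.2.2.1, h.2.2.2.1, h.2.2.2.2.2⟩
-- END dvb

-- BEGIN dvm
/-- `dv v z = ‖z - (inner ℝ (‖v‖⁻¹ • v) z) • (‖v‖⁻¹ • v)‖`: measurability of norm, inverse, inner product (`fun_prop` or
`measurability`). -/
theorem dv_measurable (z : E) : Measurable fun v => dv v z := by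
  unfold dv dl
  have h1 : Measurable fun v : E => ‖v‖⁻¹ • v := measurable_norm.inv.smul measurable_id
  have h2 : Measurable fun v : E => inner ℝ (‖v‖⁻¹ • v) z := h1.inner measurable_const
  exact (measurable_const.sub (h2.smul h1)).norm
-- END dvm

-- BEGIN sym
private theorem sym_sq (v z : E) :
    (‖v‖ * dv v z) ^ 2 = ‖v‖ ^ 2 * ‖z‖ ^ 2 - (inner ℝ v z) ^ 2 := by
  by_cases hv : v = 0
  · subst hv
    simp
  · have hn : ‖v‖ ≠ 0 := norm_ne_zero_iff.2 hv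
    have hu : ‖(‖v‖⁻¹ • v)‖ = 1 := by
      rw [norm_smul, norm_inv, norm_norm, inv_mul_cancel₀ hn]
    have h1 : (dv v z) ^ 2 = ‖z‖ ^ 2 - (inner ℝ (‖v‖⁻¹ • v) z) ^ 2 := by
      unfold dv dl
      rw [norm_sub_sq_real, inner_smul_right, norm_smul, hu, real_inner_comm, Real.norm_eq_abs,
        mul_one, sq_abs]
      ring
    rw [mul_pow, h1, real_inner_smul_left]
    field_simp

/-- Both sides are `≥ 0` with square `‖v‖² ‖z‖² - ⟪v,z⟫²` (expand `‖z - ⟪u,z⟫u‖² = ‖z‖² - ⟪u,z⟫²` for `‖u‖ = 1`); the cases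
`v = 0`, `z = 0` are trivial. -/
theorem dv_symm (v z : E) : ‖v‖ * dv v z = ‖z‖ * dv z v := by
  have h1 : 0 ≤ ‖v‖ * dv v z := mul_nonneg (norm_nonneg _) (norm_nonneg _)
  have h2 : 0 ≤ ‖z‖ * dv z v := mul_nonneg (norm_nonneg _) (norm_nonneg _)
  refine (sq_eq_sq₀ h1 h2).1 ?_
  rw [sym_sq, sym_sq, real_inner_comm]
  ring
-- END sym

-- BEGIN cyl
private theorem cyl_rot {u : E} (hu : ‖u‖ = 1) :
    ∃ φ : E → ℝ × EuclideanSpace ℝ (Fin 2), MeasurePreserving φ volume (volume.prod volume) ∧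
      ∀ z, (φ z).1 = inner ℝ u z ∧ ‖(φ z).2‖ = dl u z := by
  obtain ⟨b, hb⟩ := rot_basis hu
  have e1 : MeasurePreserving b.repr volume volume := b.measurePreserving_repr
  have e2 : MeasurePreserving (@WithLp.ofLp 2 (Fin 3 → ℝ)) := PiLp.volume_preserving_ofLp _
  have e3 := volume_preserving_piFinSuccAbove (fun _ : Fin 3 => ℝ) 0
  have e4 : MeasurePreserving
      (Prod.map (id : ℝ → ℝ) (@WithLp.toLp 2 (Fin 2 → ℝ))) (volume.prod volume) (volume.prod volume) :=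
    (MeasurePreserving.id _).prod (PiLp.volume_preserving_toLp (Fin 2))
  refine ⟨_, e4.comp (e3.comp (e2.comp e1)), fun z => ⟨?_, ?_⟩⟩
  · have : b.repr z 0 = inner ℝ u z := by rw [b.repr_apply_apply, hb]
    exact this
  · have k0 : b.repr (z - (inner ℝ u z) • u) 0 = 0 := by
      rw [b.repr_apply_apply, hb, inner_sub_right, inner_smul_right, real_inner_self_eq_norm_sq, hu]
      ring
    have k1 : ∀ k : Fin 3, k ≠ 0 → b.repr (z - (inner ℝ u z) • u) k = b.repr z k := by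
      intro k hk
      rw [b.repr_apply_apply, b.repr_apply_apply, inner_sub_right, inner_smul_right]
      have : inner ℝ (b k) u = (0 : ℝ) := by rw [← hb]; exact b.orthonormal.2 hk
      rw [this]; ring
    have hd : dl u z = ‖b.repr (z - (inner ℝ u z) • u)‖ := by
      rw [b.repr.norm_map]; rfl
    rw [hd, EuclideanSpace.norm_eq, EuclideanSpace.norm_eq, Fin.sum_univ_three, Fin.sum_univ_two,
      k0, k1 1 (by decide), k1 2 (by decide)]
    have h3 : ((Prod.map (id : ℝ → ℝ) (@WithLp.toLp 2 (Fin 2 → ℝ)) ∘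
        (MeasurableEquiv.piFinSuccAbove (fun _ : Fin 3 => ℝ) 0) ∘
        (@WithLp.ofLp 2 (Fin 3 → ℝ)) ∘ b.repr) z).2 0 = b.repr z 1 := rfl
    have h4 : ((Prod.map (id : ℝ → ℝ) (@WithLp.toLp 2 (Fin 2 → ℝ)) ∘
        (MeasurableEquiv.piFinSuccAbove (fun _ : Fin 3 => ℝ) 0) ∘
        (@WithLp.ofLp 2 (Fin 3 → ℝ)) ∘ b.repr) z).2 1 = b.repr z 2 := rfl
    rw [h3, h4]
    simp

/-- As `Vor.volume_ring_le` (rows rot and vol of Vor/Geo, read `exists_rot`: the same `φ` has `(φ z).1 = ⟪u, z⟫`): the set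
contains the preimage of `Icc (1/2) (3/4) ×ˢ ball 0 t`, of measure `(1/4) π t^2 ≥ t^2/4`. -/
theorem cyl_lower {u : E} (hu : ‖u‖ = 1) {t : ℝ} (ht : 0 < t) : ENNReal.ofReal (t ^ 2 / 4) ≤
    volume {w : E | 1 / 2 ≤ inner ℝ u w ∧ inner ℝ u w ≤ 3 / 4 ∧ dl u w < t} := by
  obtain ⟨φ, hφ, hφ2⟩ := cyl_rot hu
  have hsub : φ ⁻¹' (Icc (1 / 2 : ℝ) (3 / 4) ×ˢ (Metric.ball (0 : EuclideanSpace ℝ (Fin 2)) t)) ⊆
      {w : E | 1 / 2 ≤ inner ℝ u w ∧ inner ℝ u w ≤ 3 / 4 ∧ dl u w < t} := by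
    intro w hw
    obtain ⟨h3, h4⟩ := hφ2 w
    rw [mem_preimage, mem_prod, mem_Icc, mem_ball_zero_iff, h3, h4] at hw
    exact ⟨hw.1.1, hw.1.2, hw.2⟩
  have hms : MeasurableSet (Icc (1 / 2 : ℝ) (3 / 4) ×ˢ
      (Metric.ball (0 : EuclideanSpace ℝ (Fin 2)) t)) :=
    measurableSet_Icc.prod measurableSet_ball
  refine le_trans ?_ (measure_mono hsub)
  rw [hφ.measure_preimage hms.nullMeasurableSet, Measure.prod_prod, Real.volume_Icc,
    EuclideanSpace.volume_ball_fin_two]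
  have e1 : ENNReal.ofReal t ^ 2 * ENNReal.ofReal Real.pi = ENNReal.ofReal (t ^ 2 * Real.pi) := by
    rw [ENNReal.ofReal_mul (by positivity), ENNReal.ofReal_pow ht.le]
  rw [e1, ← ENNReal.ofReal_mul (by norm_num)]
  apply ENNReal.ofReal_le_ofReal
  have hpi := Real.pi_gt_three
  have h5 : 0 ≤ t ^ 2 := by positivity
  nlinarith
-- END cyl

-- BEGIN hup
/-- If `‖v‖ ≤ 1` and `dv v z < r`, then with `u = ‖z‖⁻¹ • z`: `dl u v = dv z v = ‖v‖ dv v z / ‖z‖ < r / ‖z‖` (`dv_symm`;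
for `v = 0`: `dl u 0 = 0 < r/‖z‖` as `0 ≤ dv 0 z < r`). So `{v | dv v z < r} ∩ closedBall 0 1` is contained in
`{w | ‖w‖ ≤ 3 ∧ w ∈ ring u 0 (r/‖z‖)}`: `Vor.volume_ring_le`, `6 π ≤ 20`. `μ A ≤ C * volume (A ∩ closedBall 0 1)` by
`Measure.le_iff'`, `Measure.restrict_apply'`. -/
theorem hit_upper {C : ℝ≥0} {μ : Measure E} (hμ : μ ≤ C • volume.restrict (Metric.closedBall (0 : E) 1))
    {z : E} (hz : z ≠ 0) {r : ℝ} (hr : 0 ≤ r) :
    μ {v | dv v z < r} ≤ ENNReal.ofReal (20 * C * (r / ‖z‖) ^ 2) := by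
  have hn : 0 < ‖z‖ := norm_pos_iff.2 hz
  have hu : ‖(‖z‖⁻¹ • z)‖ = 1 := by
    rw [norm_smul, norm_inv, norm_norm, inv_mul_cancel₀ hn.ne']
  have hsub : {v | dv v z < r} ∩ Metric.closedBall (0 : E) 1 ⊆
      {w : E | ‖w‖ ≤ 3 ∧ w ∈ ring (‖z‖⁻¹ • z) 0 (r / ‖z‖)} := by
    rintro v ⟨hv, hv1⟩
    rw [mem_closedBall_zero_iff] at hv1
    have hv' : dv v z < r := hv
    refine ⟨by linarith, norm_nonneg _, ?_⟩
    have h1 := dv_symm v z
    have h0 : 0 ≤ dv v z := norm_nonneg _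
    have h2 : ‖z‖ * dv z v < r := by
      rw [← h1]
      nlinarith [norm_nonneg v]
    show dv z v < r / ‖z‖
    rw [lt_div_iff₀ hn]
    linarith
  have h1 : μ {v | dv v z < r} ≤
      (C • volume.restrict (Metric.closedBall (0 : E) 1)) {v | dv v z < r} :=
    Measure.le_iff'.1 hμ _
  refine h1.trans ?_
  rw [Measure.smul_apply, Measure.restrict_apply' Metric.isClosed_closedBall.measurableSet,
    ENNReal.smul_def, smul_eq_mul]
  have h2 := (measure_mono hsub).trans (volume_ring_le hu le_rfl (div_nonneg hr hn.le))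
  refine (mul_le_mul_right h2 (C : ℝ≥0∞)).trans ?_
  have h3 : ((C : ℝ≥0) : ℝ≥0∞) = ENNReal.ofReal (C : ℝ) := (ENNReal.ofReal_coe_nnreal).symm
  rw [h3, ← ENNReal.ofReal_mul (NNReal.coe_nonneg C)]
  apply ENNReal.ofReal_le_ofReal
  have h4 : 0 ≤ (r / ‖z‖) ^ 2 := by positivity
  have h5 : 0 ≤ (C : ℝ) * (r / ‖z‖) ^ 2 := mul_nonneg (NNReal.coe_nonneg C) h4
  have hpi := Real.pi_lt_d2
  nlinarith
-- END hup

-- BEGIN hlo
/-- `u = ‖z‖⁻¹ • z`, `t = r / (2 ‖z‖) ≤ 1/2`. For `1/2 ≤ ⟪u,w⟫ ≤ 3/4`, `dl u w < t`: `‖w‖² = ⟪u,w⟫² + (dl u w)² ≤ 13/16`,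
`‖w‖ ≥ 1/2`, so `dv w z = ‖z‖ dv z w / ‖w‖ = ‖z‖ dl u w / ‖w‖ < 2 ‖z‖ t = r`. `cyl_lower`. -/
theorem hit_lower {c : ℝ≥0} {μ : Measure E} (hμ : c • volume.restrict (Metric.closedBall (0 : E) 1) ≤ μ)
    {z : E} (hz : z ≠ 0) {r : ℝ} (hr : 0 < r) (hrz : r ≤ ‖z‖) :
    ENNReal.ofReal (c * (r / ‖z‖) ^ 2 / 16) ≤ μ {v | dv v z < r} := by
  have hz0 : 0 < ‖z‖ := norm_pos_iff.2 hz
  set u : E := ‖z‖⁻¹ • z with hu
  have hu1 : ‖u‖ = 1 := by
    rw [hu, norm_smul, norm_inv, norm_norm, inv_mul_cancel₀ hz0.ne']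
  set t : ℝ := r / (2 * ‖z‖) with ht
  have ht0 : 0 < t := by positivity
  have ht1 : t ≤ 1 / 2 := by
    rw [ht, div_le_div_iff₀ (by positivity) (by norm_num)]
    linarith
  set A : Set E := {w : E | 1 / 2 ≤ inner ℝ u w ∧ inner ℝ u w ≤ 3 / 4 ∧ dl u w < t} with hA
  have hsub : A ⊆ {v | dv v z < r} ∩ Metric.closedBall (0 : E) 1 := by
    rintro w ⟨h1, h2, h3⟩
    have h4 : 0 ≤ dl u w := norm_nonneg _
    have h5 : ‖w‖ ^ 2 = (inner ℝ u w) ^ 2 + (dl u w) ^ 2 := by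
      have h6 : (dl u w) ^ 2 = ‖w‖ ^ 2 - (inner ℝ u w) ^ 2 := by
        unfold dl
        rw [norm_sub_sq_real, inner_smul_right, norm_smul, hu1, mul_one, Real.norm_eq_abs, sq_abs,
          real_inner_comm w u]
        ring
      rw [h6]
      ring
    have h7 : ‖w‖ ≤ 1 := by
      have h8 : (dl u w) ^ 2 ≤ (1 / 2) ^ 2 := pow_le_pow_left₀ h4 (by linarith) 2
      have h9 : (inner ℝ u w) ^ 2 ≤ (3 / 4) ^ 2 := pow_le_pow_left₀ (by linarith) h2 2
      have h10 : ‖w‖ ^ 2 ≤ 1 ^ 2 := by rw [h5]; linarith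
      exact le_of_sq_le_sq h10 zero_le_one
    have h11 : 1 / 2 ≤ ‖w‖ := by
      have h12 := real_inner_le_norm u w
      rw [hu1, one_mul] at h12
      linarith
    refine ⟨?_, by rw [Metric.mem_closedBall, dist_zero_right]; exact h7⟩
    change dv w z < r
    have h13 := dv_symm w z
    have h14 : dv z w = dl u w := rfl
    rw [h14] at h13
    have h15 : ‖z‖ * dl u w < ‖z‖ * t := mul_lt_mul_of_pos_left h3 hz0
    have h16 : ‖z‖ * t = r / 2 := by rw [ht]; field_simp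
    by_contra h17
    push Not at h17
    have h18 : 1 / 2 * r ≤ ‖w‖ * dv w z :=
      mul_le_mul h11 h17 hr.le (norm_nonneg _)
    linarith
  have h1 := cyl_lower hu1 ht0
  have h2 : (c • volume.restrict (Metric.closedBall (0 : E) 1)) {v | dv v z < r} ≤
      μ {v | dv v z < r} := hμ _
  refine le_trans ?_ h2
  rw [Measure.smul_apply, Measure.restrict_apply' Metric.isClosed_closedBall.measurableSet]
  have h3 : ENNReal.ofReal (c * (r / ‖z‖) ^ 2 / 16) = (c : ℝ≥0∞) * ENNReal.ofReal (t ^ 2 / 4) := by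
    rw [← ENNReal.ofReal_coe_nnreal, ← ENNReal.ofReal_mul c.coe_nonneg]
    congr 1
    rw [ht]
    field_simp
    ring
  rw [h3]
  calc (c : ℝ≥0∞) * ENNReal.ofReal (t ^ 2 / 4) ≤ (c : ℝ≥0∞) * volume A := by gcongr
    _ ≤ (c : ℝ≥0∞) * volume ({v | dv v z < r} ∩ Metric.closedBall (0 : E) 1) := by
        gcongr
    _ = c • volume ({v | dv v z < r} ∩ Metric.closedBall (0 : E) 1) := rfl
-- END hlo

-- BEGIN pol
private theorem pol_sq (u w : E) (hu : ‖u‖ = 1 ∨ u = 0) :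
    dl u w ^ 2 = ‖w‖ ^ 2 - (inner ℝ u w) ^ 2 := by
  rcases hu with hu | rfl
  · unfold dl
    rw [@norm_sub_sq_real, norm_smul, hu, real_inner_smul_right, mul_one, Real.norm_eq_abs,
      sq_abs, real_inner_comm]
    ring
  · unfold dl
    simp

/-- With `u = ‖v‖⁻¹ • v` (norm 1 or `u = 0`): `(dv v w)^2 = ‖w‖^2 - ⟪u,w⟫^2`. The polynomial is
`∑ c, Q c ^ 2 - (∑ c, C (u c) * Q c) ^ 2`; see the proof of `Vor.exists_poly`. -/
theorem exists_poly_dv (v : E) (w : (Fin 3 → ℝ) → E)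
    (hw : ∀ c, ∃ Q : MvPolynomial (Fin 3) ℝ, Q.totalDegree ≤ 1 ∧ ∀ z, (w z) c = MvPolynomial.eval z Q) :
    ∃ P : MvPolynomial (Fin 3) ℝ, P.totalDegree ≤ 2 ∧
      ∀ z, MvPolynomial.eval z P = dv v (w z) ^ 2 := by
  choose Q h1 h2 using hw
  set u : E := ‖v‖⁻¹ • v with hu
  have hu1 : ‖u‖ = 1 ∨ u = 0 := by
    by_cases hv : v = 0
    · right
      rw [hu, hv, smul_zero]
    · left
      rw [hu, norm_smul, norm_inv, norm_norm, inv_mul_cancel₀ (norm_ne_zero_iff.2 hv)]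
  refine ⟨∑ c : Fin 3, Q c ^ 2 - (∑ c : Fin 3, MvPolynomial.C (u c) * Q c) ^ 2, ?_, fun z => ?_⟩
  · refine (MvPolynomial.totalDegree_sub _ _).trans (max_le ?_ ?_)
    · refine MvPolynomial.totalDegree_finsetSum_le fun c _ => ?_
      refine (MvPolynomial.totalDegree_pow _ _).trans ?_
      have := h1 c
      omega
    · refine (MvPolynomial.totalDegree_pow _ _).trans ?_
      have : (∑ c : Fin 3, MvPolynomial.C (u c) * Q c :
          MvPolynomial (Fin 3) ℝ).totalDegree ≤ 1 := by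
        refine MvPolynomial.totalDegree_finsetSum_le fun c _ => ?_
        refine (MvPolynomial.totalDegree_mul _ _).trans ?_
        rw [MvPolynomial.totalDegree_C]
        have := h1 c
        omega
      omega
  · unfold dv
    rw [← hu, pol_sq u (w z) hu1, EuclideanSpace.norm_sq_eq]
    simp only [map_sub, map_sum, map_pow, map_mul, MvPolynomial.eval_C]
    congr 1
    · refine Finset.sum_congr rfl fun c _ => ?_
      rw [Real.norm_eq_abs, sq_abs, h2 c z]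
    · congr 1
      rw [PiLp.inner_apply]
      refine Finset.sum_congr rfl fun c _ => ?_
      rw [h2 c z]
      simp [mul_comm]
-- END pol

end Pool.Agent.Vrd
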