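import Pool.Agent.Vrd.Geo

/-!
The expected weight of a cell
-/

set_option autoImplicit false

namespace Pool.Agent.Vrd

open MeasureTheory Set Vor
open scoped ENNReal NNReal

-- BEGIN wqm
/-- `wq` is a combination of indicators of measurable sets of `D`; `dv_measurable`. See `Vor.wt_measurable`. -/
theorem wq_measurable (τ ρ : ℝ) (star : Prop) [Decidable star] (w : E) :
    Measurable fun v => wq τ ρ star (dv v w) := by
  have hw : Measurable (wq τ ρ star) := by
    unfold wq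
    exact Measurable.ite (measurableSet_le measurable_const measurable_id)
      (Measurable.ite (measurableSet_lt measurable_id measurable_const) measurable_const
        measurable_const) measurable_const
  exact hw.comp (dv_measurable w)
-- END wqm

-- BEGIN fst
theorem factor_star {C : ℝ≥0} {μ : Measure E}
    (hμ : μ ≤ C • volume.restrict (Metric.closedBall (0 : E) 1)) {τ ρ : ℝ} (hτ0 : 0 ≤ τ)
    (hτ1 : τ ≤ 1) (hρ : 0 < ρ) {w : E} (hw : ρ / 2 ≤ ‖w‖) (star : Prop) [Decidable star] (hs : star) :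
    ∫⁻ v, wq τ ρ star (dv v w) ∂μ ≤ ENNReal.ofReal (360 * C * (ρ / ‖w‖) ^ 2) := by
  have hw0 : w ≠ 0 := by
    intro h
    rw [h, norm_zero] at hw
    linarith
  have hmeas : MeasurableSet {v : E | dv v w < 3 * ρ} :=
    measurableSet_lt (dv_measurable w) measurable_const
  have hpt : ∀ v, wq τ ρ star (dv v w) ≤ {v : E | dv v w < 3 * ρ}.indicator (fun _ => 2) v := by
    intro v
    unfold wq
    by_cases h1 : dv v w < 3 * ρ
    · rw [Set.indicator_of_mem (show v ∈ {v : E | dv v w < 3 * ρ} from h1)]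
      split_ifs
      · calc ENNReal.ofReal (1 + τ) ≤ ENNReal.ofReal 2 := ENNReal.ofReal_le_ofReal (by linarith)
          _ = 2 := by norm_num
      · exact zero_le
    · rw [Set.indicator_of_notMem (show v ∉ {v : E | dv v w < 3 * ρ} from h1)]
      split_ifs
      · exact le_rfl
      · exact le_rfl
  refine (lintegral_mono hpt).trans ?_
  rw [lintegral_indicator hmeas, lintegral_const, Measure.restrict_apply_univ]
  refine (mul_le_mul_right (hit_upper hμ hw0 (by positivity : (0:ℝ) ≤ 3 * ρ)) 2).trans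
    (le_of_eq ?_)
  have e : ∀ x : ℝ, (2 : ℝ≥0∞) * ENNReal.ofReal x = ENNReal.ofReal (2 * x) := by
    intro x
    rw [ENNReal.ofReal_mul (by norm_num), ENNReal.ofReal_ofNat]
  rw [e]
  congr 1
  ring
-- END fst

-- BEGIN fns
/-- `wq τ ρ False D ≤ 1{ρ/2 ≤ D} + ofReal τ * 1{D < 3ρ}`; the integral is at most
`1 - μ{dv < ρ/2} + τ μ{dv < 3ρ} ≤ 1 - (c/64) s + 180 C τ s ≤ 1 - (c/128) s ≤ exp (-(c/128) s)`, `s = (ρ/‖w‖)^2`, by `hit_lower`
(`r = ρ/2`), `hit_upper` (`r = 3ρ`), `23040 C τ ≤ c`. -/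
theorem factor_other {c C : ℝ≥0} {μ : Measure E} [IsProbabilityMeasure μ]
    (hμ : μ ≤ C • volume.restrict (Metric.closedBall (0 : E) 1))
    (hμ' : c • volume.restrict (Metric.closedBall (0 : E) 1) ≤ μ) {τ ρ : ℝ} (hτ0 : 0 ≤ τ)
    (hτ : 23040 * C * τ ≤ c) (hρ : 0 < ρ) {w : E} (hw : ρ / 2 ≤ ‖w‖) (star : Prop) [Decidable star]
    (hs : ¬ star) :
    ∫⁻ v, wq τ ρ star (dv v w) ∂μ ≤ ENNReal.ofReal (Real.exp (-(c / 128 * (ρ / ‖w‖) ^ 2))) := by
  have hw0 : 0 < ‖w‖ := by linarith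
  have hwne : w ≠ 0 := norm_pos_iff.1 hw0
  set s : ℝ := (ρ / ‖w‖) ^ 2 with hs'
  have hs0 : 0 ≤ s := sq_nonneg _
  have hc0 : (0 : ℝ) ≤ c := c.2
  have hC0 : (0 : ℝ) ≤ C := C.2
  have hA : MeasurableSet {v : E | dv v w < ρ / 2} :=
    measurableSet_lt (dv_measurable w) measurable_const
  have hB : MeasurableSet {v : E | dv v w < 3 * ρ} :=
    measurableSet_lt (dv_measurable w) measurable_const
  have h1 : ∫⁻ v, (wq τ ρ star (dv v w) + ({v : E | dv v w < ρ / 2}.indicator (fun _ => 1) v)) ∂μ ≤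
      ∫⁻ v, (1 + ({v : E | dv v w < 3 * ρ}.indicator (fun _ => ENNReal.ofReal τ) v)) ∂μ := by
    refine lintegral_mono fun v => ?_
    unfold wq
    by_cases h2 : ρ / 2 ≤ dv v w
    · rw [if_pos h2, Set.indicator_of_notMem (show v ∉ {v : E | dv v w < ρ / 2} from
        not_lt.2 h2), add_zero]
      by_cases h3 : dv v w < 3 * ρ
      · rw [if_pos h3, Set.indicator_of_mem (show v ∈ {v : E | dv v w < 3 * ρ} from h3),
          ENNReal.ofReal_add zero_le_one hτ0, ENNReal.ofReal_one]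
      · rw [if_neg h3, if_neg hs]
        exact le_self_add
    · rw [if_neg h2, zero_add, Set.indicator_of_mem (show v ∈ {v : E | dv v w < ρ / 2} from
        not_le.1 h2)]
      exact le_self_add
  rw [lintegral_add_right _ (measurable_const.indicator hA),
    lintegral_add_right _ (measurable_const.indicator hB), lintegral_indicator_const hA,
    lintegral_indicator_const hB, one_mul, lintegral_one, measure_univ] at h1
  have h2 := hit_lower hμ' hwne (show 0 < ρ / 2 by linarith) hw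
  have h3 := hit_upper hμ hwne (show 0 ≤ 3 * ρ by linarith)
  have h4 : (c : ℝ) * (ρ / 2 / ‖w‖) ^ 2 / 16 = c / 64 * s := by
    rw [hs']
    ring
  have h5 : 20 * (C : ℝ) * (3 * ρ / ‖w‖) ^ 2 = 180 * C * s := by
    rw [hs']
    ring
  rw [h4] at h2
  rw [h5] at h3
  have h6 : ENNReal.ofReal τ * ENNReal.ofReal (180 * C * s) ≤ ENNReal.ofReal (c / 128 * s) := by
    rw [← ENNReal.ofReal_mul hτ0]
    refine ENNReal.ofReal_le_ofReal ?_
    have := mul_le_mul_of_nonneg_right hτ hs0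
    linarith
  have h7 : (∫⁻ v, wq τ ρ star (dv v w) ∂μ) + ENNReal.ofReal (c / 64 * s) ≤
      ENNReal.ofReal (1 + c / 128 * s) := by
    refine (add_le_add le_rfl h2).trans (h1.trans ?_)
    rw [ENNReal.ofReal_add zero_le_one (by positivity), ENNReal.ofReal_one]
    exact add_le_add le_rfl ((mul_le_mul_right h3 _).trans h6)
  have h8 := ENNReal.le_sub_of_add_le_right ENNReal.ofReal_ne_top h7
  rw [← ENNReal.ofReal_sub _ (by positivity)] at h8
  refine h8.trans (ENNReal.ofReal_le_ofReal ?_)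
  have := Real.add_one_le_exp (-(c / 128 * s))
  linarith
-- END fns

-- BEGIN ext
private theorem ext_pair {n : ℕ} {c C : ℝ≥0} (s : Fin n → ℝ) (hs0 : ∀ m, 0 ≤ s m)
    (hs4 : ∀ m, s m ≤ 4) {i j : Fin n} (hij : i ≠ j) :
    ∏ m, (if m = i ∨ m = j then 360 * (C : ℝ) * s m else Real.exp (-(c / 128 * s m))) ≤
      (360 * C) ^ 2 * Real.exp (c / 16) * (s i * s j * Real.exp (-(c / 128 * ∑ m, s m))) := by
  have hc0 : (0 : ℝ) ≤ c := c.2
  have hC0 : (0 : ℝ) ≤ C := C.2
  have e1 : ∀ m, (if m = i ∨ m = j then 360 * (C : ℝ) * s m else Real.exp (-(c / 128 * s m))) =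
      (if m = i ∨ m = j then 360 * (C : ℝ) * s m * Real.exp (c / 128 * s m) else 1) *
        Real.exp (-(c / 128 * s m)) := by
    intro m
    by_cases h : m = i ∨ m = j
    · rw [if_pos h, if_pos h, mul_assoc (360 * (C : ℝ) * s m), ← Real.exp_add, add_neg_cancel,
        Real.exp_zero, mul_one]
    · rw [if_neg h, if_neg h, one_mul]
  rw [Finset.prod_congr rfl fun m _ => e1 m, Finset.prod_mul_distrib, ← Real.exp_sum]
  have e2 : ∏ m, (if m = i ∨ m = j then 360 * (C : ℝ) * s m * Real.exp (c / 128 * s m) else 1) =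
      ∏ m ∈ ({i, j} : Finset (Fin n)),
        (if m = i ∨ m = j then 360 * (C : ℝ) * s m * Real.exp (c / 128 * s m) else 1) := by
    refine (Finset.prod_subset (Finset.subset_univ _) fun m _ hm => ?_).symm
    rw [Finset.mem_insert, Finset.mem_singleton] at hm
    rw [if_neg hm]
  rw [e2, Finset.prod_pair hij, if_pos (Or.inl rfl), if_pos (Or.inr rfl)]
  have e3 : ∑ m, -((c : ℝ) / 128 * s m) = -(c / 128 * ∑ m, s m) := by
    rw [Finset.sum_neg_distrib, Finset.mul_sum]
  rw [e3]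
  have e4 : Real.exp (c / 128 * s i) * Real.exp (c / 128 * s j) ≤ Real.exp (c / 16) := by
    rw [← Real.exp_add]
    refine Real.exp_le_exp.2 ?_
    have h1 := mul_le_mul_of_nonneg_left (hs4 i) (show 0 ≤ (c : ℝ) / 128 by positivity)
    have h2 := mul_le_mul_of_nonneg_left (hs4 j) (show 0 ≤ (c : ℝ) / 128 by positivity)
    linarith
  have e5 := mul_le_mul_of_nonneg_left e4 (show 0 ≤ (360 * (C : ℝ)) ^ 2 *
    (s i * s j * Real.exp (-(c / 128 * ∑ m, s m))) from
      mul_nonneg (sq_nonneg _) (mul_nonneg (mul_nonneg (hs0 i) (hs0 j)) (Real.exp_pos _).le))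
  calc _ = (360 * (C : ℝ)) ^ 2 * (s i * s j * Real.exp (-(c / 128 * ∑ m, s m))) *
        (Real.exp (c / 128 * s i) * Real.exp (c / 128 * s j)) := by ring
    _ ≤ _ := e5
    _ = _ := by ring

/-- If some `‖w m‖ < ρ/2`, then `term = 0` (a factor vanishes: `dv ≤ ‖w m‖`). Otherwise `Vor.lintegral_pi_prod` (Vor/Cov) for
every pair `i ≠ j`: the factors `i`, `j` by `factor_star`, the others by `factor_other`; put the two missing exponentials in:
`(c/128) (s_i + s_j) ≤ (c/128) * 8 = c/16` as `s = (ρ/‖w‖)^2 ≤ 4`. -/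
theorem exp_term {n : ℕ} {c C : ℝ≥0} {μ : Fin n → Measure E} [∀ i, IsProbabilityMeasure (μ i)]
    (hμ : ∀ i, μ i ≤ C • volume.restrict (Metric.closedBall (0 : E) 1))
    (hμ' : ∀ i, c • volume.restrict (Metric.closedBall (0 : E) 1) ≤ μ i) {τ ρ : ℝ} (hτ0 : 0 ≤ τ)
    (hτ1 : τ ≤ 1) (hτ : 23040 * C * τ ≤ c) (hρ : 0 < ρ) (w : Fin n → E) :
    ∫⁻ v, term τ ρ (fun m => dv (v m) (w m)) ∂(Measure.pi μ) ≤
      ENNReal.ofReal ((360 * C) ^ 2 * Real.exp (c / 16) * psi (c / 128) ρ (fun m => ‖w m‖)) := by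
  have hc0 : (0 : ℝ) ≤ c := c.2
  have hC0 : (0 : ℝ) ≤ C := C.2
  by_cases hall : ∀ m, ρ / 2 ≤ ‖w m‖
  · have hpos : ∀ m, 0 < ‖w m‖ := fun m => by have := hall m; linarith
    set s : Fin n → ℝ := fun m => (ρ / ‖w m‖) ^ 2 with hs
    have hs0 : ∀ m, 0 ≤ s m := fun m => sq_nonneg _
    have hs4 : ∀ m, s m ≤ 4 := by
      intro m
      have h1 : ρ / ‖w m‖ ≤ 2 := by
        rw [div_le_iff₀ (hpos m)]
        have := hall m
        linarith
      have h2 : 0 ≤ ρ / ‖w m‖ := by positivity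
      have := pow_le_pow_left₀ h2 h1 2
      simp only [hs]
      linarith
    have hmeas : ∀ i j : Fin n, Measurable fun v : Fin n → E =>
        if i = j then (0 : ℝ≥0∞) else ∏ m, wq τ ρ (m = i ∨ m = j) (dv (v m) (w m)) := by
      intro i j
      by_cases hij : i = j
      · simp only [if_pos hij]
        exact measurable_const
      · simp only [if_neg hij]
        exact Finset.measurable_prod _ fun m _ =>
          (wq_measurable τ ρ (m = i ∨ m = j) (w m)).comp (measurable_pi_apply m)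
    obtain ⟨q, hq⟩ : ∃ q : Fin n → Fin n → ℝ, ∀ i j, q i j = if i = j then 0 else
        (360 * C) ^ 2 * Real.exp (c / 16) * (s i * s j * Real.exp (-(c / 128 * ∑ m, s m))) :=
      ⟨_, fun _ _ => rfl⟩
    have hterm : ∀ i j : Fin n,
        (∫⁻ v, (if i = j then (0 : ℝ≥0∞) else
          ∏ m, wq τ ρ (m = i ∨ m = j) (dv (v m) (w m))) ∂(Measure.pi μ)) ≤
        ENNReal.ofReal (q i j) := by
      intro i j
      rw [hq i j]
      by_cases hij : i = j
      · simp only [if_pos hij]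
        simp
      · simp only [if_neg hij]
        rw [Vor.lintegral_pi_prod μ (fun m x => wq τ ρ (m = i ∨ m = j) (dv x (w m)))
          fun m => wq_measurable τ ρ (m = i ∨ m = j) (w m)]
        have h1 : ∀ m ∈ (Finset.univ : Finset (Fin n)),
            (∫⁻ x, wq τ ρ (m = i ∨ m = j) (dv x (w m)) ∂(μ m)) ≤
            ENNReal.ofReal (if m = i ∨ m = j then 360 * (C : ℝ) * s m
              else Real.exp (-(c / 128 * s m))) := by
          intro m _
          by_cases hm : m = i ∨ m = j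
          · rw [if_pos hm]
            exact factor_star (hμ m) hτ0 hτ1 hρ (hall m) _ hm
          · rw [if_neg hm]
            exact factor_other (hμ m) (hμ' m) hτ0 hτ hρ (hall m) _ hm
        refine (Finset.prod_le_prod' h1).trans ?_
        rw [← ENNReal.ofReal_prod_of_nonneg]
        · exact ENNReal.ofReal_le_ofReal (ext_pair s hs0 hs4 hij)
        · intro m _
          by_cases hm : m = i ∨ m = j
          · rw [if_pos hm]
            exact mul_nonneg (by positivity) (hs0 m)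
          · rw [if_neg hm]
            exact (Real.exp_pos _).le
    unfold term
    rw [lintegral_finsetSum _ fun i _ => Finset.measurable_sum _ fun j _ => hmeas i j]
    have h2 : ∀ i ∈ (Finset.univ : Finset (Fin n)),
        (∫⁻ v, (∑ j, if i = j then (0 : ℝ≥0∞) else
          ∏ m, wq τ ρ (m = i ∨ m = j) (dv (v m) (w m))) ∂(Measure.pi μ)) ≤
        ∑ j, ENNReal.ofReal (q i j) := by
      intro i _
      rw [lintegral_finsetSum _ fun j _ => hmeas i j]
      exact Finset.sum_le_sum fun j _ => hterm i j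
    refine (Finset.sum_le_sum h2).trans ?_
    have hnn : ∀ i j : Fin n, 0 ≤ q i j := by
      intro i j
      rw [hq i j]
      by_cases hij : i = j
      · rw [if_pos hij]
      · rw [if_neg hij]
        exact mul_nonneg (mul_nonneg (sq_nonneg _) (Real.exp_pos _).le)
          (mul_nonneg (mul_nonneg (hs0 i) (hs0 j)) (Real.exp_pos _).le)
    have h3 : ∀ i ∈ (Finset.univ : Finset (Fin n)),
        ∑ j, ENNReal.ofReal (q i j) = ENNReal.ofReal (∑ j, q i j) :=
      fun i _ => (ENNReal.ofReal_sum_of_nonneg fun j _ => hnn i j).symm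
    rw [Finset.sum_congr rfl h3,
      ← ENNReal.ofReal_sum_of_nonneg fun i _ => Finset.sum_nonneg fun j _ => hnn i j]
    refine ENNReal.ofReal_le_ofReal (le_of_eq ?_)
    unfold psi phi
    rw [if_pos hall, Finset.sum_mul, Finset.mul_sum]
    refine Finset.sum_congr rfl fun i _ => ?_
    rw [Finset.sum_mul, Finset.mul_sum]
    refine Finset.sum_congr rfl fun j _ => ?_
    rw [hq i j]
    by_cases hij : i = j
    · rw [if_pos hij, if_pos hij]
      ring
    · rw [if_neg hij, if_neg hij]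
  · push Not at hall
    obtain ⟨m0, hm0⟩ := hall
    have h0 : ∀ v : Fin n → E, term τ ρ (fun m => dv (v m) (w m)) = 0 := by
      intro v
      unfold term
      refine Finset.sum_eq_zero fun i _ => Finset.sum_eq_zero fun j _ => ?_
      by_cases hij : i = j
      · rw [if_pos hij]
      · rw [if_neg hij]
        refine Finset.prod_eq_zero (Finset.mem_univ m0) ?_
        unfold wq
        rw [if_neg]
        have := (dv_basic (v m0)).2.1 (w m0)
        exact not_le.2 (lt_of_le_of_lt this hm0)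
    simp only [h0]
    simp
-- END ext

-- BEGIN cnt
/-- `(16 k^2 + 13)^3 / (1+τ)^k` is bounded: `tendsto_pow_const_div_const_pow_of_one_lt` (or compare with `k^6`). -/
theorem exists_const {τ : ℝ} (hτ : 0 < τ) :
    ∃ K : ℝ, 0 < K ∧ ∀ k : ℕ, ((16 * k ^ 2 + 13) ^ 3 : ℝ) ≤ K * (1 + τ) ^ k := by
  have h1 := (tendsto_pow_const_div_const_pow_of_one_lt 6 (show 1 < 1 + τ by linarith)).bddAbove_range
  obtain ⟨M, hM⟩ := h1
  refine ⟨29 ^ 3 * max M 1, by positivity, fun k => ?_⟩
  have hp : 0 < (1 + τ) ^ k := by positivity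
  rcases Nat.eq_zero_or_pos k with rfl | hk
  · have := le_max_right M 1
    norm_num
    linarith
  · have hk1 : (1 : ℝ) ≤ k := by exact_mod_cast hk
    have h2 : (k : ℝ) ^ 6 / (1 + τ) ^ k ≤ M := hM ⟨k, rfl⟩
    have h3 : (k : ℝ) ^ 6 ≤ max M 1 * (1 + τ) ^ k := by
      rw [div_le_iff₀ hp] at h2
      exact h2.trans (mul_le_mul_of_nonneg_right (le_max_left _ _) hp.le)
    have h4 : (16 * (k : ℝ) ^ 2 + 13) ≤ 29 * (k : ℝ) ^ 2 := by nlinarith
    have h5 : (16 * (k : ℝ) ^ 2 + 13) ^ 3 ≤ (29 * (k : ℝ) ^ 2) ^ 3 :=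
      pow_le_pow_left₀ (by positivity) h4 3
    calc (16 * (k : ℝ) ^ 2 + 13) ^ 3 ≤ (29 * (k : ℝ) ^ 2) ^ 3 := h5
      _ = 29 ^ 3 * (k : ℝ) ^ 6 := by ring
      _ ≤ 29 ^ 3 * (max M 1 * (1 + τ) ^ k) := mul_le_mul_of_nonneg_left h3 (by norm_num)
      _ = _ := by ring
-- END cnt

-- BEGIN cel
/-- The summand of `term` for `i`, `j` is the product over `m` of `ofReal (1+τ)` (`m ∈ L`; in particular for `m = i, j`) and
`1` (`m ∉ L`), so it is `ofReal (1+τ) ^ #L`. -/
theorem cell_weight {n : ℕ} {τ ρ K : ℝ} (hτ : 0 < τ) (hK : 0 < K)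
    (hKτ : ∀ k : ℕ, ((16 * k ^ 2 + 13) ^ 3 : ℝ) ≤ K * (1 + τ) ^ k) (D : Fin n → ℝ)
    (hD : ∀ m, ρ / 2 ≤ D m) {i j : Fin n} (hij : i ≠ j) (hi : D i < 3 * ρ) (hj : D j < 3 * ρ)
    (L : Finset (Fin n)) (hL : ∀ m, m ∈ L ↔ D m < 3 * ρ) :
    (((16 * L.card ^ 2 + 13) ^ 3 : ℕ) : ℝ≥0∞) ≤ ENNReal.ofReal K * term τ ρ D := by
  have h1 : ∏ m, wq τ ρ (m = i ∨ m = j) (D m) = ENNReal.ofReal (1 + τ) ^ L.card := by
    have e1 : ∀ m, wq τ ρ (m = i ∨ m = j) (D m) =
        if m ∈ L then ENNReal.ofReal (1 + τ) else 1 := by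
      intro m
      unfold wq
      rw [if_pos (hD m)]
      by_cases hm : m ∈ L
      · rw [if_pos hm, if_pos ((hL m).1 hm)]
      · have hm' : ¬ D m < 3 * ρ := fun h => hm ((hL m).2 h)
        rw [if_neg hm, if_neg hm', if_neg]
        rintro (rfl | rfl)
        · exact hm' hi
        · exact hm' hj
    rw [Finset.prod_congr rfl fun m _ => e1 m, Finset.prod_ite_mem, Finset.univ_inter,
      Finset.prod_const]
  have h2 : ENNReal.ofReal (1 + τ) ^ L.card ≤ term τ ρ D := by
    rw [← h1]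
    unfold term
    have h3 := Finset.single_le_sum (f := fun j => if i = j then (0 : ℝ≥0∞) else
      ∏ m, wq τ ρ (m = i ∨ m = j) (D m)) (fun _ _ => zero_le) (Finset.mem_univ j)
    have h4 := Finset.single_le_sum (f := fun i => ∑ j, if i = j then (0 : ℝ≥0∞) else
      ∏ m, wq τ ρ (m = i ∨ m = j) (D m)) (fun _ _ => zero_le) (Finset.mem_univ i)
    beta_reduce at h3 h4
    rw [if_neg hij] at h3
    exact h3.trans h4
  have h5 : (((16 * L.card ^ 2 + 13) ^ 3 : ℕ) : ℝ≥0∞) =
      ENNReal.ofReal ((16 * (L.card : ℝ) ^ 2 + 13) ^ 3) := by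
    rw [← ENNReal.ofReal_natCast]
    congr 1
    push_cast
    ring
  rw [h5]
  refine (ENNReal.ofReal_le_ofReal (hKτ L.card)).trans ?_
  rw [ENNReal.ofReal_mul hK.le, ENNReal.ofReal_pow (by linarith)]
  exact mul_le_mul_right h2 _
-- END cel

end Pool.Agent.Vrd
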