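import Pool.Agent.Vrd.Defs

/-!
The sums over levels and grid points
-/

set_option autoImplicit false

namespace Pool.Agent.Vrd

open MeasureTheory Set Vor
open scoped ENNReal NNReal

-- BEGIN seq
private theorem seq_tele {κ : ℝ} (hκ : 0 < κ) {x : ℝ} (hx : 0 ≤ x) :
    x * Real.exp (-(κ * x ^ 2)) ≤
      (7 / 2 + 5 / 2 / κ) * (x / (1 + x)) - (7 / 2 + 5 / 2 / κ) * (x / 2 / (1 + x / 2)) := by
  have h1 : (7 / 2 + 5 / 2 / κ) * (x / (1 + x)) - (7 / 2 + 5 / 2 / κ) * (x / 2 / (1 + x / 2)) =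
      (7 / 2 + 5 / 2 / κ) * (x / ((1 + x) * (2 + x))) := by
    have h2 : (1 + x) ≠ 0 := by positivity
    have h3 : (2 + x) ≠ 0 := by positivity
    have h4 : 1 + x / 2 ≠ 0 := by positivity
    field_simp
    ring
  rw [h1]
  have hy : 0 ≤ κ * x ^ 2 := by positivity
  have h2 : Real.exp (-(κ * x ^ 2)) ≤ 1 / (1 + κ * x ^ 2) := by
    rw [Real.exp_neg, ← one_div]
    apply one_div_le_one_div_of_le (by positivity)
    have := Real.add_one_le_exp (κ * x ^ 2)
    linarith
  have h3 : 1 / (1 + κ * x ^ 2) ≤ (7 / 2 + 5 / 2 / κ) * (1 / ((1 + x) * (2 + x))) := by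
    rw [mul_one_div, div_le_div_iff₀ (by positivity) (by positivity)]
    have h4 : (1 + x) * (2 + x) ≤ 7 / 2 + 5 / 2 * x ^ 2 := by nlinarith [sq_nonneg (x - 1)]
    have h5 : (7 / 2 + 5 / 2 / κ) * (1 + κ * x ^ 2) =
        7 / 2 + 5 / 2 * x ^ 2 + (5 / 2 / κ + 7 / 2 * (κ * x ^ 2)) := by
      field_simp
      ring
    have h6 : 0 ≤ 5 / 2 / κ + 7 / 2 * (κ * x ^ 2) := by positivity
    linarith
  calc x * Real.exp (-(κ * x ^ 2)) ≤ x * ((7 / 2 + 5 / 2 / κ) * (1 / ((1 + x) * (2 + x)))) :=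
        mul_le_mul_of_nonneg_left (h2.trans h3) hx
    _ = (7 / 2 + 5 / 2 / κ) * (x / ((1 + x) * (2 + x))) := by ring

/-- `s_q = t * lev q` is a geometric sequence with ratio `1/2`. Terms with `s_q ≤ 1`: sum at most 2. Terms with `s_q > 1`:
`s exp (-κ s²) ≤ 1/(κ s)`, and the `1/s_q` form a geometric sequence: sum at most `2/κ`. (For instance
`s exp (-κ s²) ≤ min s (1/(κ s))` and split at the first `q` with `s_q ≤ 1`.) Or: partial sums over `range N`, induction. -/
theorem seq_sum {κ : ℝ} (hκ : 0 < κ) : ∃ K : ℝ, 0 < K ∧ ∀ t : ℝ, 0 ≤ t →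
    ∑' q, ENNReal.ofReal (t * lev q * Real.exp (-(κ * (t * lev q) ^ 2))) ≤ ENNReal.ofReal K := by
  refine ⟨7 / 2 + 5 / 2 / κ, by positivity, fun t ht => ?_⟩
  have hlev : ∀ q, 0 ≤ t * lev q := fun q => by unfold lev; positivity
  have hstep : ∀ q, t * lev (q + 1) = t * lev q / 2 := by
    intro q
    unfold lev
    rw [pow_succ]
    ring
  apply ENNReal.tsum_le_of_sum_range_le
  intro N
  rw [← ENNReal.ofReal_sum_of_nonneg (fun q _ => mul_nonneg (hlev q) (Real.exp_pos _).le)]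
  apply ENNReal.ofReal_le_ofReal
  have h1 : ∀ N : ℕ, ∑ q ∈ Finset.range N, t * lev q * Real.exp (-(κ * (t * lev q) ^ 2)) ≤
      (7 / 2 + 5 / 2 / κ) * (t * lev 0 / (1 + t * lev 0)) -
      (7 / 2 + 5 / 2 / κ) * (t * lev N / (1 + t * lev N)) := by
    intro N
    induction N with
    | zero => simp
    | succ N ih =>
      rw [Finset.sum_range_succ, hstep N]
      have := seq_tele hκ (hlev N)
      linarith
  refine (h1 N).trans ?_
  have h2 : t * lev 0 / (1 + t * lev 0) ≤ 1 := by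
    rw [div_le_one (by linarith [hlev 0])]
    linarith
  have h3 : 0 ≤ (7 / 2 + 5 / 2 / κ) * (t * lev N / (1 + t * lev N)) :=
    mul_nonneg (by positivity) (div_nonneg (hlev N) (by linarith [hlev N]))
  have h4 : (7 / 2 + 5 / 2 / κ) * (t * lev 0 / (1 + t * lev 0)) ≤ (7 / 2 + 5 / 2 / κ) * 1 :=
    mul_le_mul_of_nonneg_left h2 (by positivity)
  linarith
-- END seq

-- BEGIN gcd
/-- `#(grid q) ≤ (8 * 2 ^ q + 1) ^ 3 ≤ (9 * 2 ^ q) ^ 3 = 729 * 8 ^ q`, `(lev q) ^ 3 = 64 / 8 ^ q`. -/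
theorem card_grid (q : ℕ) : ((grid q).card : ℝ) * lev q ^ 3 ≤ 50000 := by
  have h1 : (grid q).card ≤ (8 * 2 ^ q + 1) ^ 3 := by
    unfold grid
    refine Finset.card_image_le.trans ?_
    rw [Fintype.card_piFinset_const, Int.card_Icc]
    apply le_of_eq
    congr 1
    have : (4 * 2 ^ q + 1 - -(4 * 2 ^ q) : ℤ) = ((8 * 2 ^ q + 1 : ℕ) : ℤ) := by
      push_cast
      ring
    rw [this, Int.toNat_natCast]
  have h2 : ((grid q).card : ℝ) ≤ (9 * 2 ^ q) ^ 3 := by
    have h3 : ((grid q).card : ℝ) ≤ ((8 * 2 ^ q + 1 : ℕ) : ℝ) ^ 3 := by exact_mod_cast h1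
    refine h3.trans ?_
    push_cast
    have h4 : (1 : ℝ) ≤ 2 ^ q := one_le_pow₀ (by norm_num)
    exact pow_le_pow_left₀ (by positivity) (by linarith) 3
  have h5 : (0 : ℝ) ≤ lev q ^ 3 := by unfold lev; positivity
  calc ((grid q).card : ℝ) * lev q ^ 3 ≤ (9 * 2 ^ q) ^ 3 * lev q ^ 3 :=
        mul_le_mul_of_nonneg_right h2 h5
    _ = 46656 := by
        unfold lev
        rw [← mul_pow]
        have : (9 * 2 ^ q * (4 * (1 / 2) ^ q) : ℝ) = 36 := by
          rw [one_div, inv_pow]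
          field_simp
          norm_num
        rw [this]
        norm_num
    _ ≤ 50000 := by norm_num
-- END gcd

-- BEGIN gin
/-- the cube of `z0` -/
private def ginS (l : ℝ) (z0 : Fin 3 → ℝ) : Set E :=
  (@WithLp.ofLp 2 (Fin 3 → ℝ)) ⁻¹' (Set.pi Set.univ fun c => Ico (z0 c - l / 16) (z0 c + l / 16))

private theorem gin_mem {l : ℝ} {z0 : Fin 3 → ℝ} {x : E} (hx : x ∈ ginS l z0) (c : Fin 3) :
    z0 c - l / 16 ≤ x c ∧ x c < z0 c + l / 16 := by
  have := hx c (Set.mem_univ c)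
  exact this

private theorem gin_meas (l : ℝ) (z0 : Fin 3 → ℝ) : MeasurableSet (ginS l z0) :=
  (PiLp.volume_preserving_ofLp (Fin 3)).measurable
    (MeasurableSet.univ_pi fun _ => measurableSet_Ico)

private theorem gin_vol {l : ℝ} (hl : 0 < l) (z0 : Fin 3 → ℝ) :
    volume (ginS l z0) = ENNReal.ofReal ((l / 8) ^ 3) := by
  unfold ginS
  rw [(PiLp.volume_preserving_ofLp (Fin 3)).measure_preimage
    (MeasurableSet.univ_pi fun _ => measurableSet_Ico).nullMeasurableSet, Real.volume_pi_Ico,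
    Fin.prod_univ_three, ENNReal.ofReal_pow (by positivity), pow_three, ← mul_assoc]
  have e : ∀ c, z0 c + l / 16 - (z0 c - l / 16) = l / 8 := by
    intro c
    ring
  rw [e 0, e 1, e 2]

private theorem gin_grid (q : ℕ) {z0 : Fin 3 → ℝ} (hz : z0 ∈ grid q) :
    ∃ k : Fin 3 → ℤ, (∀ c, -(4 * 2 ^ q : ℤ) ≤ k c ∧ k c ≤ 4 * 2 ^ q) ∧ ∀ c, z0 c = lev q / 8 * (k c : ℝ) := by
  unfold grid at hz
  rw [Finset.mem_image] at hz
  obtain ⟨k, hk, rfl⟩ := hz
  rw [Fintype.mem_piFinset] at hk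
  exact ⟨k, fun c => Finset.mem_Icc.1 (hk c), fun c => rfl⟩

/-- The half open cubes `{x | ∀ c, z0 c - lev q/16 ≤ x c ∧ x c < z0 c + lev q/16}` (`z0 ∈ grid q`) are disjoint, measurable, of volume
`(lev q/8)^3` (`EuclideanSpace.volume_preserving_symm_measurableEquiv_toLp` / `Real.volume_pi_Ico`) and contained in the ball of radius 4
(`|x c| ≤ 2 + 1/4`). So `f z0 * volume ≤ ∫⁻ x in cube, g x`; sum (`lintegral_biUnion_finset`). -/
theorem grid_integral (q : ℕ) (f : (Fin 3 → ℝ) → ℝ≥0∞) (g : E → ℝ≥0∞) (hg : Measurable g)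
    (h : ∀ z0 ∈ grid q, ∀ x : E, (∀ c, |x c - z0 c| ≤ lev q / 16) → f z0 ≤ g x) :
    ∑ z0 ∈ grid q, f z0 ≤
      ENNReal.ofReal (512 * (lev q)⁻¹ ^ 3) * ∫⁻ x in Metric.closedBall (0 : E) 4, g x := by
  have hl : 0 < lev q := by unfold lev; positivity
  have hl4 : lev q ≤ 4 := by
    unfold lev
    have : ((1 : ℝ) / 2) ^ q ≤ 1 := pow_le_one₀ (by norm_num) (by norm_num)
    linarith
  have hdisj : Set.PairwiseDisjoint (↑(grid q)) (ginS (lev q)) := by
    intro z0 hz0 z1 hz1 hne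
    rw [Function.onFun, Set.disjoint_left]
    intro x hx0 hx1
    apply hne
    obtain ⟨k0, -, hk0⟩ := gin_grid q (Finset.mem_coe.1 hz0)
    obtain ⟨k1, -, hk1⟩ := gin_grid q (Finset.mem_coe.1 hz1)
    funext c
    have h0 := gin_mem hx0 c
    have h1 := gin_mem hx1 c
    rw [hk0 c, hk1 c] at *
    have h2 : (k0 c : ℝ) < (k1 c : ℝ) + 1 := by
      by_contra hcon
      push Not at hcon
      nlinarith
    have h3 : (k1 c : ℝ) < (k0 c : ℝ) + 1 := by
      by_contra hcon
      push Not at hcon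
      nlinarith
    have h4 : k0 c < k1 c + 1 := by exact_mod_cast h2
    have h5 : k1 c < k0 c + 1 := by exact_mod_cast h3
    have h6 : k0 c = k1 c := by omega
    rw [h6]
  have hball : ∀ z0 ∈ grid q, ginS (lev q) z0 ⊆ Metric.closedBall (0 : E) 4 := by
    intro z0 hz0 x hx
    obtain ⟨k, hk, hkz⟩ := gin_grid q hz0
    rw [mem_closedBall_zero_iff]
    apply le_of_sq_le_sq _ (by norm_num)
    rw [EuclideanSpace.norm_sq_eq, Fin.sum_univ_three]
    have hc : ∀ c, ‖x c‖ ^ 2 ≤ (9 / 4) ^ 2 := by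
      intro c
      have h1 := gin_mem hx c
      have h2 : |z0 c| ≤ 2 := by
        rw [hkz c, abs_mul, abs_of_pos (by positivity)]
        have h3 : |(k c : ℝ)| ≤ 4 * 2 ^ q := by
          rw [abs_le]
          constructor
          · have := (hk c).1
            exact_mod_cast this
          · have := (hk c).2
            exact_mod_cast this
        calc lev q / 8 * |(k c : ℝ)| ≤ lev q / 8 * (4 * 2 ^ q) :=
              mul_le_mul_of_nonneg_left h3 (by positivity)
          _ = 2 := by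
              unfold lev
              rw [one_div, inv_pow]
              field_simp
              norm_num
      rw [abs_le] at h2
      rw [Real.norm_eq_abs]
      apply pow_le_pow_left₀ (abs_nonneg _)
      rw [abs_le]
      constructor
      · linarith [h1.1, h2.1]
      · linarith [h1.2, h2.2]
    have h0 := hc 0
    have h1 := hc 1
    have h2 := hc 2
    linarith
  have hone : ∀ z0 ∈ grid q, f z0 ≤ ENNReal.ofReal (512 * (lev q)⁻¹ ^ 3) * ∫⁻ x in ginS (lev q) z0, g x := by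
    intro z0 hz0
    have h1 : f z0 * volume (ginS (lev q) z0) ≤ ∫⁻ x in ginS (lev q) z0, g x := by
      rw [← setLIntegral_const]
      apply setLIntegral_mono hg
      intro x hx
      apply h z0 hz0 x
      intro c
      have h2 := gin_mem hx c
      rw [abs_le]
      constructor
      · linarith [h2.1]
      · linarith [h2.2]
    rw [gin_vol hl] at h1
    calc f z0 = f z0 * 1 := (mul_one _).symm
      _ = f z0 * (ENNReal.ofReal ((lev q / 8) ^ 3) * ENNReal.ofReal (512 * (lev q)⁻¹ ^ 3)) := by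
          rw [← ENNReal.ofReal_mul (by positivity)]
          have e : (lev q / 8) ^ 3 * (512 * (lev q)⁻¹ ^ 3) = 1 := by
            field_simp
            norm_num
          rw [e, ENNReal.ofReal_one]
      _ = ENNReal.ofReal (512 * (lev q)⁻¹ ^ 3) * (f z0 * ENNReal.ofReal ((lev q / 8) ^ 3)) := by ring
      _ ≤ _ := mul_le_mul_right h1 _
  refine (Finset.sum_le_sum hone).trans ?_
  rw [← Finset.mul_sum]
  refine mul_le_mul_right ?_ _
  rw [← lintegral_biUnion_finset hdisj (fun z0 _ => gin_meas (lev q) z0) g]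
  apply lintegral_mono_set
  exact Set.iUnion₂_subset hball
-- END gin

end Pool.Agent.Vrd
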